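import Pool.Agent.X18.SteinerEmb2
import Pool.Agent.W855.Threshold
import Pool.Agent.W855.Conv

/-! Counting Steiner systems `S(n,q,2)`: replacing the blocks of a Steiner system by Steiner systems. -/

set_option autoImplicit false

namespace Pool.Agent.X172.ManyS

open Finset

/-- `B` is a Steiner system `S(n,q,2)` on the set `Fin n` -/
def IsSteiner (n q : ℕ) (B : Finset (Finset (Fin n))) : Prop :=
  (∀ b ∈ B, b.card = q) ∧ ∀ T : Finset (Fin n), T.card = 2 → ∃! b, b ∈ B ∧ T ⊆ b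

/-- two blocks with a common pair are equal -/
lemma IsSteiner.eq_of {n q : ℕ} {B : Finset (Finset (Fin n))} (h : IsSteiner n q B)
    {T b c : Finset (Fin n)} (hT : T.card = 2) (hb : b ∈ B) (hc : c ∈ B) (h1 : T ⊆ b) (h2 : T ⊆ c) :
    b = c := by
  obtain ⟨d, -, hd⟩ := h.2 T hT
  rw [hd b ⟨hb, h1⟩, hd c ⟨hc, h2⟩]

lemma exists_pair {α : Type} {b : Finset α} (h : 2 ≤ b.card) : ∃ T, T ⊆ b ∧ T.card = 2 :=
  Finset.exists_subset_card_eq h

/-- the image of a system under a permutation -/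
def act {n : ℕ} (σ : Equiv.Perm (Fin n)) (B : Finset (Finset (Fin n))) : Finset (Finset (Fin n)) :=
  B.map (Finset.mapEmbedding σ.toEmbedding).toEmbedding

lemma mem_act {n : ℕ} (σ : Equiv.Perm (Fin n)) (B : Finset (Finset (Fin n))) (x : Finset (Fin n)) :
    x ∈ act σ B ↔ ∃ b ∈ B, b.map σ.toEmbedding = x := by
  unfold act
  rw [mem_map]
  rfl

lemma act_steiner {n q : ℕ} (σ : Equiv.Perm (Fin n)) {B : Finset (Finset (Fin n))}
    (h : IsSteiner n q B) : IsSteiner n q (act σ B) := by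
  constructor
  · intro x hx
    obtain ⟨b, hb, rfl⟩ := (mem_act _ _ _).1 hx
    rw [card_map]
    exact h.1 b hb
  · intro T hT
    obtain ⟨b, ⟨hb, hTb⟩, hu⟩ := h.2 (T.map σ.symm.toEmbedding) (by rw [card_map, hT])
    have key : ∀ c : Finset (Fin n), T.map σ.symm.toEmbedding ⊆ c ↔ T ⊆ c.map σ.toEmbedding := by
      intro c
      constructor
      · intro hc x hx
        rw [mem_map]
        refine ⟨σ.symm x, hc (mem_map.2 ⟨x, hx, rfl⟩), ?_⟩
        simp
      · intro hc x hx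
        obtain ⟨y, hy, rfl⟩ := mem_map.1 hx
        obtain ⟨z, hz, hzy⟩ := mem_map.1 (hc hy)
        have : σ.symm y = z := by
          rw [Equiv.symm_apply_eq]
          exact hzy.symm
        simpa [this] using hz
    refine ⟨b.map σ.toEmbedding, ⟨(mem_act _ _ _).2 ⟨b, hb, rfl⟩, (key b).1 hTb⟩, ?_⟩
    rintro x ⟨hx, hTx⟩
    obtain ⟨c, hc, rfl⟩ := (mem_act _ _ _).1 hx
    rw [hu c ⟨hc, (key c).2 hTx⟩]

/-- a system with `3 ≤ q < n` is moved by some transposition -/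
lemma exists_other {n q : ℕ} (hq : 3 ≤ q) (hn : q < n) {B : Finset (Finset (Fin n))}
    (h : IsSteiner n q B) : ∃ B', IsSteiner n q B' ∧ B' ≠ B := by
  classical
  obtain ⟨T, -, hT⟩ := exists_pair (b := (univ : Finset (Fin n))) (by rw [card_univ, Fintype.card_fin]; omega)
  obtain ⟨b, ⟨hb, -⟩, -⟩ := h.2 T hT
  have hbc := h.1 b hb
  obtain ⟨j, hj⟩ : ∃ j, j ∉ b := by
    by_contra hcon
    push Not at hcon
    have h1 : b = univ := eq_univ_of_forall hcon
    rw [h1, card_univ, Fintype.card_fin] at hbc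
    omega
  obtain ⟨i, hi⟩ : b.Nonempty := card_pos.1 (by omega)
  refine ⟨act (Equiv.swap i j) B, act_steiner _ h, fun heq => ?_⟩
  have h1 : b.map (Equiv.swap i j).toEmbedding ∈ B := by
    rw [← heq]
    exact (mem_act _ _ _).2 ⟨b, hb, rfl⟩
  -- the pair in b minus i
  obtain ⟨S, hS, hS2⟩ := exists_pair (b := b.erase i) (by rw [card_erase_of_mem hi]; omega)
  have h2 : S ⊆ b.map (Equiv.swap i j).toEmbedding := by
    intro x hx
    have hx' := hS hx
    rw [mem_erase] at hx'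
    rw [mem_map]
    refine ⟨x, hx'.2, ?_⟩
    have : x ≠ j := fun hxj => hj (hxj ▸ hx'.2)
    exact Equiv.swap_apply_of_ne_of_ne hx'.1 this
  have h3 := h.eq_of hS2 hb h1 (hS.trans (erase_subset _ _)) h2
  apply hj
  rw [h3, mem_map]
  exact ⟨i, hi, Equiv.swap_apply_left i j⟩

/-- every pair of points is in a unique block -/
def IsPBD (m : ℕ) (𝓑 : Finset (Finset (Fin m))) : Prop :=
  ∀ T : Finset (Fin m), T.card = 2 → ∃! b, b ∈ 𝓑 ∧ T ⊆ b

/-- two blocks with a common pair are equal -/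
lemma IsPBD.eq_of {n : ℕ} {B : Finset (Finset (Fin n))} (h : IsPBD n B)
    {T b c : Finset (Fin n)} (hT : T.card = 2) (hb : b ∈ B) (hc : c ∈ B) (h1 : T ⊆ b) (h2 : T ⊆ c) :
    b = c := by
  obtain ⟨d, -, hd⟩ := h T hT
  rw [hd b ⟨hb, h1⟩, hd c ⟨hc, h2⟩]

section Replace

variable {m q : ℕ} {𝓑 : Finset (Finset (Fin m))} (h𝓑 : IsPBD m 𝓑)
  (D : (k : ℕ) → Bool → Finset (Finset (Fin k)))

/-- the numbering of a block -/
def emb (b : Finset (Fin m)) : Fin b.card ↪ Fin m := (b.orderEmbOfFin rfl).toEmbedding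

lemma emb_mem (b : Finset (Fin m)) (i : Fin b.card) : emb b i ∈ b :=
  Finset.orderEmbOfFin_mem _ _ i

lemma map_sub (b : Finset (Fin m)) (d : Finset (Fin b.card)) : d.map (emb b) ⊆ b := by
  intro x hx
  obtain ⟨i, -, rfl⟩ := mem_map.1 hx
  exact emb_mem b i

lemma emb_surj (b : Finset (Fin m)) {x : Fin m} (hx : x ∈ b) : ∃ i, emb b i = x := by
  have h1 := Finset.range_orderEmbOfFin b rfl
  have : x ∈ Set.range (b.orderEmbOfFin rfl) := by
    rw [h1]
    exact hx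
  exact this

/-- replace the block `b` by a copy of the system `D (f b)` -/
def rep (f : {b // b ∈ 𝓑} → Bool) : Finset (Finset (Fin m)) :=
  𝓑.attach.biUnion fun b => (D b.1.card (f b)).map (Finset.mapEmbedding (emb b.1)).toEmbedding

lemma mem_rep (f : {b // b ∈ 𝓑} → Bool) (x : Finset (Fin m)) :
    x ∈ rep D f ↔ ∃ b : {b // b ∈ 𝓑}, ∃ d ∈ D b.1.card (f b), d.map (emb b.1) = x := by
  unfold rep
  rw [mem_biUnion]
  constructor
  · rintro ⟨b, -, hb⟩
    rw [mem_map] at hb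
    obtain ⟨d, hd, hdx⟩ := hb
    exact ⟨b, d, hd, hdx⟩
  · rintro ⟨b, d, hd, hdx⟩
    exact ⟨b, mem_attach _ _, mem_map.2 ⟨d, hd, hdx⟩⟩

lemma pull (b : Finset (Fin m)) {T : Finset (Fin m)} (hT : T ⊆ b) :
    ∃ S : Finset (Fin b.card), S.map (emb b) = T ∧ S.card = T.card := by
  classical
  have h1 : (univ.filter fun i => emb b i ∈ T).map (emb b) = T := by
    ext x
    rw [mem_map]
    constructor
    · rintro ⟨i, hi, rfl⟩
      exact (mem_filter.1 hi).2
    · intro hx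
      obtain ⟨i, rfl⟩ := emb_surj b (hT hx)
      exact ⟨i, mem_filter.2 ⟨mem_univ _, hx⟩, rfl⟩
  refine ⟨univ.filter fun i => emb b i ∈ T, h1, ?_⟩
  rw [← card_map (emb b), h1]

include h𝓑 in
lemma rep_steiner (hD : ∀ b ∈ 𝓑, ∀ t, IsSteiner b.card q (D b.card t)) (f : {b // b ∈ 𝓑} → Bool) :
    IsSteiner m q (rep D f) := by
  constructor
  · intro x hx
    obtain ⟨b, d, hd, rfl⟩ := (mem_rep _ _ _).1 hx
    rw [card_map]
    exact (hD _ b.2 _).1 d hd
  · intro T hT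
    obtain ⟨b, ⟨hb, hTb⟩, hu⟩ := h𝓑 T hT
    obtain ⟨S, hS, hSc⟩ := pull b hTb
    obtain ⟨d, ⟨hd, hSd⟩, hdu⟩ := (hD b hb (f ⟨b, hb⟩)).2 S (by rw [hSc, hT])
    refine ⟨d.map (emb b), ⟨(mem_rep _ _ _).2 ⟨⟨b, hb⟩, d, hd, rfl⟩, ?_⟩, ?_⟩
    · rw [← hS]
      exact Finset.map_subset_map.2 hSd
    · rintro x ⟨hx, hTx⟩
      obtain ⟨c, d', hd', rfl⟩ := (mem_rep _ _ _).1 hx
      have hcb : c.1 = b := hu c.1 ⟨c.2, hTx.trans (map_sub c.1 d')⟩
      have hc : c = ⟨b, hb⟩ := Subtype.ext hcb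
      subst hc
      rw [← hS, Finset.map_subset_map] at hTx
      rw [hdu d' ⟨hd', hTx⟩]

include h𝓑 in
lemma rep_inj (hq : 2 ≤ q) (hD : ∀ b ∈ 𝓑, ∀ t, IsSteiner b.card q (D b.card t))
    (hne : ∀ b ∈ 𝓑, D b.card true ≠ D b.card false) :
    Function.Injective (rep D (𝓑 := 𝓑)) := by
  have key : ∀ f g : {b // b ∈ 𝓑} → Bool, rep D f = rep D g →
      ∀ b : {b // b ∈ 𝓑}, D b.1.card (f b) ⊆ D b.1.card (g b) := by
    intro f g h b d hd
    have h1 : d.map (emb b.1) ∈ rep D g := by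
      rw [← h]
      exact (mem_rep _ _ _).2 ⟨b, d, hd, rfl⟩
    obtain ⟨c, d', hd', he⟩ := (mem_rep _ _ _).1 h1
    obtain ⟨T, hT, hTc⟩ := exists_pair (b := d.map (emb b.1)) (by
      rw [card_map, (hD _ b.2 _).1 d hd]; exact hq)
    have h2 : T ⊆ b.1 := hT.trans (map_sub b.1 d)
    have h3 : T ⊆ c.1 := by
      refine hT.trans ?_
      rw [← he]
      exact map_sub c.1 d'
    have h4 : c = b := Subtype.ext (h𝓑.eq_of hTc c.2 b.2 h3 h2)
    subst h4
    have h5 : d' = d := (Finset.map_injective _) he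
    rw [← h5]
    exact hd'
  intro f g h
  funext b
  have h1 : D b.1.card (f b) = D b.1.card (g b) := subset_antisymm (key f g h b) (key g f h.symm b)
  have h2 := hne b.1 b.2
  revert h1
  cases f b <;> cases g b <;> simp [h2, h2.symm]

end Replace

open scoped Classical in
/-- the set of all Steiner systems `S(n,q,2)` on `Fin n` -/
noncomputable def sys (n q : ℕ) : Finset (Finset (Finset (Fin n))) := univ.filter (IsSteiner n q)

lemma mem_sys {n q : ℕ} {B : Finset (Finset (Fin n))} : B ∈ sys n q ↔ IsSteiner n q B := by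
  classical
  unfold sys
  rw [mem_filter]
  exact ⟨fun h => h.2, fun h => ⟨mem_univ _, h⟩⟩

lemma count_rep {m q : ℕ} (hq : 3 ≤ q) {𝓑 : Finset (Finset (Fin m))} (h𝓑 : IsPBD m 𝓑)
    (hD : ∀ b ∈ 𝓑, q < b.card ∧ ∃ D : Finset (Finset (Fin b.card)), IsSteiner b.card q D) :
    2 ^ 𝓑.card ≤ (sys m q).card := by
  classical
  have h2 : ∀ k : ℕ, ∃ D : Bool → Finset (Finset (Fin k)),
      (q < k ∧ ∃ D : Finset (Finset (Fin k)), IsSteiner k q D) →
        (∀ t, IsSteiner k q (D t)) ∧ D true ≠ D false := by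
    intro k
    by_cases hk : q < k ∧ ∃ D : Finset (Finset (Fin k)), IsSteiner k q D
    · obtain ⟨hqk, D, hD⟩ := hk
      obtain ⟨D', hD', hne⟩ := exists_other hq hqk hD
      refine ⟨fun t => if t then D' else D, fun _ => ⟨?_, by simpa using hne⟩⟩
      intro t
      cases t
      · simpa using hD
      · simpa using hD'
    · exact ⟨fun _ => ∅, fun h => absurd h hk⟩
  choose D hDD using h2
  have h1 : (univ : Finset ({b // b ∈ 𝓑} → Bool)).card = 2 ^ 𝓑.card := by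
    rw [card_univ, Fintype.card_fun, Fintype.card_bool, Fintype.card_coe]
  rw [← h1]
  refine Finset.card_le_card_of_injOn (rep D (𝓑 := 𝓑)) ?_ ?_
  · intro f _
    exact mem_coe.2 (mem_sys.2 (rep_steiner h𝓑 D (fun b hb => (hDD b.card (hD b hb)).1) f))
  · exact (rep_inj h𝓑 D (by omega) (fun b hb => (hDD b.card (hD b hb)).1)
      (fun b hb => (hDD b.card (hD b hb)).2)).injOn

/-- a subsystem is determined by the big system -/
lemma sub_det {m n q : ℕ} (hq : 2 ≤ q) (h : m ≤ n) {B₀ B₁ : Finset (Finset (Fin m))}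
    {B : Finset (Finset (Fin n))} (h0 : IsSteiner m q B₀) (h1 : IsSteiner m q B₁)
    (hB : IsSteiner n q B) (e0 : ∀ b ∈ B₀, b.map (Fin.castLEEmb h) ∈ B)
    (e1 : ∀ b ∈ B₁, b.map (Fin.castLEEmb h) ∈ B) : B₀ ⊆ B₁ := by
  intro b hb
  obtain ⟨T, hT, hTc⟩ := exists_pair (b := b) (by rw [h0.1 b hb]; exact hq)
  obtain ⟨c, ⟨hc, hTc'⟩, -⟩ := h1.2 T hTc
  have h2 : b.map (Fin.castLEEmb h) = c.map (Fin.castLEEmb h) :=
    hB.eq_of (T := T.map (Fin.castLEEmb h)) (by rw [card_map, hTc]) (e0 b hb) (e1 c hc)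
      (Finset.map_subset_map.2 hT) (Finset.map_subset_map.2 hTc')
  rw [(Finset.map_injective _) h2]
  exact hc

lemma count_emb {m n q : ℕ} (hq : 2 ≤ q)
    (H : ∀ B₀ : Finset (Finset (Fin m)), IsSteiner m q B₀ →
      ∃ (h : m ≤ n) (B : Finset (Finset (Fin n))), IsSteiner n q B ∧
        ∀ b ∈ B₀, b.map (Fin.castLEEmb h) ∈ B) :
    (sys m q).card ≤ (sys n q).card := by
  classical
  choose! hmn F hF using H
  refine Finset.card_le_card_of_injOn F ?_ ?_
  · intro B₀ hB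
    exact mem_coe.2 (mem_sys.2 (hF B₀ (mem_sys.1 hB)).1)
  · intro B₀ h0 B₁ h1 he
    have g0 := mem_sys.1 h0
    have g1 := mem_sys.1 h1
    have f0 := hF B₀ g0
    have f1 := hF B₁ g1
    rw [← he] at f1
    exact subset_antisymm (sub_det hq (hmn B₀ g0) g0 g1 f0.1 f0.2 f1.2)
      (sub_det hq (hmn B₀ g0) g1 g0 f0.1 f1.2 f0.2)

/-! ### Isomorphism classes -/

/-- two systems are isomorphic -/
def Iso {n : ℕ} (B B' : Finset (Finset (Fin n))) : Prop := ∃ σ : Equiv.Perm (Fin n), act σ B = B'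

lemma act_one {n : ℕ} (B : Finset (Finset (Fin n))) : act 1 B = B := by
  ext x
  rw [mem_act]
  constructor
  · rintro ⟨b, hb, rfl⟩
    have : b.map (Equiv.toEmbedding 1) = b := Finset.map_refl
    rw [this]
    exact hb
  · intro hx
    exact ⟨x, hx, Finset.map_refl⟩

lemma act_mul {n : ℕ} (σ τ : Equiv.Perm (Fin n)) (B : Finset (Finset (Fin n))) :
    act σ (act τ B) = act (σ * τ) B := by
  ext x
  rw [mem_act, mem_act]
  constructor
  · rintro ⟨b, hb, rfl⟩
    obtain ⟨c, hc, rfl⟩ := (mem_act _ _ _).1 hb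
    refine ⟨c, hc, ?_⟩
    rw [Finset.map_map]
    rfl
  · rintro ⟨c, hc, rfl⟩
    refine ⟨c.map τ.toEmbedding, (mem_act _ _ _).2 ⟨c, hc, rfl⟩, ?_⟩
    rw [Finset.map_map]
    rfl

/-- isomorphism as an equivalence relation -/
def isoSetoid (n : ℕ) : Setoid (Finset (Finset (Fin n))) where
  r := Iso
  iseqv := by
    refine ⟨fun B => ⟨1, act_one B⟩, ?_, ?_⟩
    · rintro B _ ⟨σ, rfl⟩
      refine ⟨σ⁻¹, ?_⟩
      rw [act_mul, inv_mul_cancel, act_one]
    · rintro B _ _ ⟨σ, rfl⟩ ⟨τ, rfl⟩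
      exact ⟨τ * σ, (act_mul _ _ _).symm⟩

/-- there are many pairwise non-isomorphic systems -/
lemma classes (n q : ℕ) : ∃ 𝓕 : Finset (Finset (Finset (Fin n))), (∀ B ∈ 𝓕, IsSteiner n q B) ∧
    (∀ B ∈ 𝓕, ∀ B' ∈ 𝓕, Iso B B' → B = B') ∧ (sys n q).card ≤ n.factorial * 𝓕.card := by
  classical
  letI := isoSetoid n
  let r : Finset (Finset (Fin n)) → Finset (Finset (Fin n)) := fun B =>
    Quotient.out (Quotient.mk (isoSetoid n) B)
  have hr : ∀ B, Iso (r B) B := fun B => Quotient.mk_out (s := isoSetoid n) B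
  have hr2 : ∀ B B', Iso B B' → r B = r B' := by
    intro B B' h
    have : Quotient.mk (isoSetoid n) B = Quotient.mk (isoSetoid n) B' := Quotient.sound h
    simp only [r, this]
  refine ⟨(sys n q).image r, ?_, ?_, ?_⟩
  · intro B hB
    obtain ⟨B', hB', rfl⟩ := mem_image.1 hB
    obtain ⟨σ, hσ⟩ := (isoSetoid n).iseqv.symm (hr B')
    rw [← hσ]
    exact act_steiner σ (mem_sys.1 hB')
  · intro B hB B' hB' h
    obtain ⟨A, hA, rfl⟩ := mem_image.1 hB
    obtain ⟨A', hA', rfl⟩ := mem_image.1 hB'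
    have h1 : Iso A A' := (isoSetoid n).iseqv.trans ((isoSetoid n).iseqv.symm (hr A))
      ((isoSetoid n).iseqv.trans h (hr A'))
    exact hr2 A A' h1
  · refine Finset.card_le_mul_card_image _ _ fun a ha => ?_
    have h1 : (sys n q).filter (fun x => r x = a) ⊆
        (univ : Finset (Equiv.Perm (Fin n))).image (fun σ => act σ a) := by
      intro B hB
      obtain ⟨-, hB2⟩ := mem_filter.1 hB
      obtain ⟨σ, hσ⟩ := hr B
      rw [hB2] at hσ
      exact mem_image.2 ⟨σ, mem_univ _, hσ⟩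
    refine (card_le_card h1).trans (card_image_le.trans ?_)
    rw [card_univ, Fintype.card_perm, Fintype.card_fin]

end Pool.Agent.X172.ManyS
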