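import Pool.Agent.X172.ManyS.Res

/-! Frames and the closure theorem for resolvable Steiner systems. -/

set_option autoImplicit false

namespace Pool.Agent.X172.Fr

open Finset Pool.Agent.X172.Res

/-- A frame with block size `q` and groups the fibres of `π`: for every group one partial parallel
class, which partitions the complement of the group. -/
def AF (q : ℕ) {V X : Type} (π : V → X) : Prop :=
  ∃ P : X → Set (Finset V),
    (∀ x, ∀ h ∈ P x, h.card = q ∧ Set.InjOn π (h : Set V) ∧ ∀ p ∈ h, π p ≠ x) ∧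
    (∀ x p, π p ≠ x → ∃! h, h ∈ P x ∧ p ∈ h) ∧
    (∀ p p', π p ≠ π p' → ∃! h, (∃ x, h ∈ P x) ∧ p ∈ h ∧ p' ∈ h) ∧
    (∀ x x' h, h ∈ P x → h ∈ P x' → x = x')

theorem AF_congr {q : ℕ} {V X V' X' : Type} {π : V → X} {π' : V' → X'} (e : V ≃ V') (f : X ≃ X')
    (hef : ∀ v, π' (e v) = f (π v)) (h : AF q π) : AF q π' := by
  classical
  obtain ⟨P, h1, h2, h3, h4⟩ := h
  let m : Finset V → Finset V' := fun b => b.map e.toEmbedding
  have hm : Function.Injective m := Finset.map_injective _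
  have mm : ∀ (x : V') (b : Finset V), x ∈ m b ↔ e.symm x ∈ b := by
    intro x b
    simp only [m, mem_map_equiv]
  have hef' : ∀ v, π (e.symm v) = f.symm (π' v) := by
    intro v
    rw [Equiv.eq_symm_apply, ← hef, Equiv.apply_symm_apply]
  refine ⟨fun x => {h | ∃ g ∈ P (f.symm x), m g = h}, ?_, ?_, ?_, ?_⟩
  · rintro x _ ⟨g, hg, rfl⟩
    obtain ⟨a, b, c⟩ := h1 _ g hg
    refine ⟨by simp only [m, card_map, a], ?_, ?_⟩
    · intro p hp p' hp' hpp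
      have k1 : e.symm p ∈ g := (mm _ _).1 (mem_coe.1 hp)
      have k2 : e.symm p' ∈ g := (mm _ _).1 (mem_coe.1 hp')
      have := b (mem_coe.2 k1) (mem_coe.2 k2) (by rw [hef', hef', hpp])
      exact e.symm.injective this
    · intro p hp hx
      have k1 : e.symm p ∈ g := (mm _ _).1 hp
      exact c _ k1 (by rw [hef', hx])
  · intro x p hp
    obtain ⟨g, ⟨hg, hpg⟩, hu⟩ := h2 (f.symm x) (e.symm p) (by
      rw [hef']
      exact fun h => hp (f.symm.injective h))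
    refine ⟨m g, ⟨⟨g, hg, rfl⟩, (mm _ _).2 hpg⟩, ?_⟩
    rintro _ ⟨⟨g', hg', rfl⟩, hp'⟩
    rw [hu g' ⟨hg', (mm _ _).1 hp'⟩]
  · intro p p' hpp
    obtain ⟨g, ⟨⟨x, hg⟩, hpg, hpg'⟩, hu⟩ := h3 (e.symm p) (e.symm p') (by
      rw [hef', hef']
      exact fun h => hpp (f.symm.injective h))
    refine ⟨m g, ⟨⟨f x, ⟨g, by rw [Equiv.symm_apply_apply]; exact hg, rfl⟩⟩, (mm _ _).2 hpg,
      (mm _ _).2 hpg'⟩, ?_⟩
    rintro _ ⟨⟨y, g', hg', rfl⟩, hp1, hp2⟩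
    rw [hu g' ⟨⟨_, hg'⟩, (mm _ _).1 hp1, (mm _ _).1 hp2⟩]
  · rintro x x' _ ⟨g, hg, rfl⟩ ⟨g', hg', he⟩
    rw [hm he] at hg'
    exact f.symm.injective (h4 _ _ g hg hg')

/-- the standard form of a frame -/
theorem AF_std {q g : ℕ} {V X Y : Type} {π : V → X} [Finite V] (hπ : ∀ x, Nat.card {v // π v = x} = g)
    (f : X ≃ Y) (h : AF q π) : AF q (Prod.fst : Y × Fin g → Y) := by
  classical
  have e1 : ∀ x, Nonempty ({v // π v = x} ≃ Fin g) := fun x =>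
    Finite.card_eq.1 (by rw [hπ x, Nat.card_fin])
  let e2 : ∀ x, {v // π v = x} ≃ Fin g := fun x => (e1 x).some
  let e3 : V ≃ (Σ x, {v // π v = x}) := (Equiv.sigmaFiberEquiv π).symm
  let e4 : (Σ x, {v // π v = x}) ≃ (Σ _ : X, Fin g) := Equiv.sigmaCongrRight e2
  let e5 : (Σ _ : X, Fin g) ≃ X × Fin g := Equiv.sigmaEquivProd X (Fin g)
  let e6 : X × Fin g ≃ Y × Fin g := Equiv.prodCongr f (Equiv.refl _)
  refine AF_congr (((e3.trans e4).trans e5).trans e6) f ?_ h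
  intro v
  rfl

/-- **Closure.** A pairwise balanced design whose block sizes are sizes of frames gives a frame. -/
theorem AF_closure {q g : ℕ} (hq : 2 ≤ q) {K : Set ℕ} {X : Type} (h : H108.GD K (id : X → X))
    (hK : ∀ k ∈ K, AF q (Prod.fst : Fin k × Fin g → Fin k)) :
    AF q (Prod.fst : X × Fin g → X) := by
  classical
  obtain ⟨B, hB, hU⟩ := h
  have hfr : ∀ b : Finset X, b ∈ B → AF q (Prod.fst : {x // x ∈ b} × Fin g → {x // x ∈ b}) := by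
    intro b hb
    have e : Fin b.card ≃ {x // x ∈ b} := (Fintype.equivFinOfCardEq (Fintype.card_coe b)).symm
    exact AF_congr (Equiv.prodCongr e (Equiv.refl _)) e (fun v => rfl) (hK _ (hB b hb).1)
  choose! P h1 h2 h3 h4 using hfr
  let ι : (b : Finset X) → ({x // x ∈ b} × Fin g ↪ X × Fin g) := fun b =>
    ⟨fun p => (p.1.1, p.2), by
      rintro ⟨⟨x, hx⟩, i⟩ ⟨⟨y, hy⟩, j⟩ h
      simp only [Prod.mk.injEq] at h
      obtain ⟨rfl, rfl⟩ := h
      rfl⟩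
  have hι : ∀ (b : Finset X) (s : Finset ({x // x ∈ b} × Fin g)) (y : X) (t : Fin g),
      (y, t) ∈ s.map (ι b) ↔ ∃ hy : y ∈ b, (⟨y, hy⟩, t) ∈ s := by
    intro b s y t
    rw [mem_map]
    constructor
    · rintro ⟨⟨⟨z, hz⟩, i⟩, hs, he⟩
      simp only [ι, Function.Embedding.coeFn_mk, Prod.mk.injEq] at he
      obtain ⟨rfl, rfl⟩ := he
      exact ⟨hz, hs⟩
    · rintro ⟨hy, hs⟩
      exact ⟨_, hs, rfl⟩
  have huniq : ∀ {b b' : Finset X} {y z : X}, b ∈ B → b' ∈ B → y ≠ z → y ∈ b → z ∈ b → y ∈ b' →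
      z ∈ b' → b = b' := by
    intro b b' y z hb hb' hyz k1 k2 k3 k4
    obtain ⟨c, -, hc⟩ := hU y z hyz
    rw [hc b ⟨hb, k1, k2⟩, hc b' ⟨hb', k3, k4⟩]
  refine ⟨fun x => {h | ∃ b ∈ B, ∃ hx : x ∈ b, ∃ s ∈ P b ⟨x, hx⟩, s.map (ι b) = h}, ?_, ?_, ?_, ?_⟩
  · rintro x _ ⟨b, hb, hx, s, hs, rfl⟩
    obtain ⟨k1, k2, k3⟩ := h1 b hb _ s hs
    refine ⟨by rw [card_map, k1], ?_, ?_⟩
    · rintro ⟨y, t⟩ hp ⟨z, t'⟩ hp' hpp
      obtain ⟨hy, hy'⟩ := (hι _ _ _ _).1 (mem_coe.1 hp)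
      obtain ⟨hz, hz'⟩ := (hι _ _ _ _).1 (mem_coe.1 hp')
      simp only at hpp
      subst hpp
      have := k2 (mem_coe.2 hy') (mem_coe.2 hz') rfl
      have h5 : t = t' := (Prod.ext_iff.1 this).2
      rw [h5]
    · rintro ⟨y, t⟩ hp hyx
      obtain ⟨hy, hy'⟩ := (hι _ _ _ _).1 hp
      simp only at hyx
      subst hyx
      exact k3 _ hy' rfl
  · rintro x ⟨y, t⟩ hyx
    simp only at hyx
    obtain ⟨b, ⟨hb, hx, hy⟩, -⟩ := hU x y (Ne.symm hyx)
    obtain ⟨s, ⟨hs, hys⟩, hsu⟩ := h2 b hb ⟨x, hx⟩ (⟨y, hy⟩, t) (by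
      intro h5
      exact hyx (congrArg Subtype.val h5))
    refine ⟨s.map (ι b), ⟨⟨b, hb, hx, s, hs, rfl⟩, (hι _ _ _ _).2 ⟨hy, hys⟩⟩, ?_⟩
    rintro _ ⟨⟨b', hb', hx', s', hs', rfl⟩, hp⟩
    obtain ⟨hy', hys'⟩ := (hι _ _ _ _).1 hp
    have hbb : b' = b := huniq hb' hb (Ne.symm hyx) hx' hy' hx hy
    subst hbb
    rw [hsu s' ⟨hs', hys'⟩]
  · rintro ⟨x, t⟩ ⟨y, t'⟩ hxy
    simp only at hxy
    obtain ⟨b, ⟨hb, hx, hy⟩, -⟩ := hU x y hxy
    obtain ⟨s, ⟨⟨⟨z, hz⟩, hs⟩, k1, k2⟩, hsu⟩ := h3 b hb (⟨x, hx⟩, t) (⟨y, hy⟩, t') (by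
      intro h5
      exact hxy (congrArg Subtype.val h5))
    refine ⟨s.map (ι b), ⟨⟨z, b, hb, hz, s, hs, rfl⟩, (hι _ _ _ _).2 ⟨hx, k1⟩,
      (hι _ _ _ _).2 ⟨hy, k2⟩⟩, ?_⟩
    rintro _ ⟨⟨z', b', hb', hz', s', hs', rfl⟩, hp, hp'⟩
    obtain ⟨hx', k1'⟩ := (hι _ _ _ _).1 hp
    obtain ⟨hy', k2'⟩ := (hι _ _ _ _).1 hp'
    have hbb : b' = b := huniq hb' hb hxy hx' hy' hx hy
    subst hbb
    rw [hsu s' ⟨⟨_, hs'⟩, k1', k2'⟩]
  · rintro x x' _ ⟨b, hb, hx, s, hs, rfl⟩ ⟨b', hb', hx', s', hs', he⟩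
    obtain ⟨k1, k2, -⟩ := h1 b hb _ s hs
    have hc : 1 < s.card := by omega
    obtain ⟨⟨⟨y, hy⟩, t⟩, hp, ⟨⟨z, hz⟩, t'⟩, hp', hne⟩ := one_lt_card.1 hc
    have hyz : y ≠ z := by
      rintro rfl
      exact hne (k2 (mem_coe.2 hp) (mem_coe.2 hp') rfl)
    have g1 : (y, t) ∈ s'.map (ι b') := by rw [he]; exact (hι _ _ _ _).2 ⟨hy, hp⟩
    have g2 : (z, t') ∈ s'.map (ι b') := by rw [he]; exact (hι _ _ _ _).2 ⟨hz, hp'⟩
    obtain ⟨hy', -⟩ := (hι _ _ _ _).1 g1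
    obtain ⟨hz', -⟩ := (hι _ _ _ _).1 g2
    have hbb : b' = b := huniq hb' hb hyz hy' hz' hy hz
    subst hbb
    have hss : s' = s := Finset.map_injective _ he
    rw [hss] at hs'
    have := h4 b' hb' _ _ s hs hs'
    exact congrArg Subtype.val this

/-- from a resolvable Steiner system to a frame -/
theorem AF_of_res {V : Type} [Fintype V] [DecidableEq V] {q : ℕ} (hq : 2 ≤ q)
    {B : Finset (Finset V)} (h1 : IsSt V q B) {𝓟 : Finset (Finset (Finset V))}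
    (hP1 : ∀ P ∈ 𝓟, P ⊆ B ∧ ∀ x, ∃! b, b ∈ P ∧ x ∈ b) (hP2 : ∀ b ∈ B, ∃! P, P ∈ 𝓟 ∧ b ∈ P)
    (v0 : V) {k : ℕ} (hk : 𝓟.card = k) : AF q (Prod.fst : Fin k × Fin (q - 1) → Fin k) := by
  classical
  -- the block through `v0` and `v`
  have hblk : ∀ v : {v // v ≠ v0}, ∃ b, (b ∈ B ∧ v0 ∈ b ∧ v.1 ∈ b) ∧
      ∀ c, c ∈ B ∧ v0 ∈ c ∧ v.1 ∈ c → c = b := fun v => h1.2 v0 v.1 (Ne.symm v.2)
  choose bl hb1 hb2 using hblk
  have hcl : ∀ v : {v // v ≠ v0}, ∃ P, (P ∈ 𝓟 ∧ bl v ∈ P) ∧ ∀ Q, Q ∈ 𝓟 ∧ bl v ∈ Q → Q = P :=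
    fun v => hP2 (bl v) (hb1 v).1
  choose cl hc1 hc2 using hcl
  let π : {v // v ≠ v0} → {P // P ∈ 𝓟} := fun v => ⟨cl v, (hc1 v).1⟩
  have same : ∀ {P : Finset (Finset V)} {b c : Finset V} {x : V}, P ∈ 𝓟 → b ∈ P → c ∈ P → x ∈ b →
      x ∈ c → b = c := by
    intro P b c x hP hb hc hx hx'
    obtain ⟨d, -, hd⟩ := (hP1 P hP).2 x
    rw [hd b ⟨hb, hx⟩, hd c ⟨hc, hx'⟩]
  have same2 : ∀ {b c : Finset V} {x y : V}, b ∈ B → c ∈ B → x ≠ y → x ∈ b → y ∈ b → x ∈ c →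
      y ∈ c → b = c := by
    intro b c x y hb hc hxy k1 k2 k3 k4
    obtain ⟨d, -, hd⟩ := h1.2 x y hxy
    rw [hd b ⟨hb, k1, k2⟩, hd c ⟨hc, k3, k4⟩]
  -- the fibres
  have hfib : ∀ P : {P // P ∈ 𝓟}, Nat.card {v // π v = P} = q - 1 := by
    rintro ⟨P, hP⟩
    obtain ⟨b, ⟨hbP, hv0⟩, -⟩ := (hP1 P hP).2 v0
    have hbB := (hP1 P hP).1 hbP
    have e : {v // π v = ⟨P, hP⟩} ≃ {x // x ∈ b.erase v0} :=
      { toFun := fun v => ⟨v.1.1, by
          rw [mem_erase]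
          refine ⟨v.1.2, ?_⟩
          have h5 : cl v.1 = P := congrArg Subtype.val v.2
          have h7 : bl v.1 ∈ P := by
            have h8 := (hc1 v.1).2
            rw [h5] at h8
            exact h8
          have h6 : bl v.1 = b := same hP h7 hbP (hb1 v.1).2.1 hv0
          rw [← h6]
          exact (hb1 v.1).2.2⟩
        invFun := fun x => ⟨⟨x.1, (mem_erase.1 x.2).1⟩, by
          apply Subtype.ext
          have h5 : b = bl ⟨x.1, (mem_erase.1 x.2).1⟩ :=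
            hb2 ⟨x.1, (mem_erase.1 x.2).1⟩ b ⟨hbB, hv0, (mem_erase.1 x.2).2⟩
          exact (hc2 ⟨x.1, (mem_erase.1 x.2).1⟩ P ⟨hP, by rw [← h5]; exact hbP⟩).symm⟩
        left_inv := fun v => rfl
        right_inv := fun x => rfl }
    rw [Nat.card_congr e, Nat.card_eq_fintype_card, Fintype.card_coe, card_erase_of_mem hv0,
      h1.1 b hbB]
  have f : {P // P ∈ 𝓟} ≃ Fin k := Fintype.equivFinOfCardEq (by rw [Fintype.card_coe, hk])
  refine AF_std (π := π) hfib f ?_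
  -- the frame
  let em : {v // v ≠ v0} ↪ V := Function.Embedding.subtype _
  have hem : ∀ (s : Finset {v // v ≠ v0}) (v : {v // v ≠ v0}), v.1 ∈ s.map em ↔ v ∈ s := by
    intro s v
    rw [mem_map]
    constructor
    · rintro ⟨w, hw, he⟩
      have : w = v := Subtype.ext he
      rwa [← this]
    · intro hv
      exact ⟨v, hv, rfl⟩
  have hem0 : ∀ s : Finset {v // v ≠ v0}, v0 ∉ s.map em := by
    intro s h
    obtain ⟨w, -, he⟩ := mem_map.1 h
    exact w.2 he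
  have lift : ∀ b : Finset V, v0 ∉ b → ∃ s : Finset {v // v ≠ v0}, s.map em = b := by
    intro b hb
    refine ⟨b.subtype _, ?_⟩
    rw [Finset.subtype_map, filter_true_of_mem]
    rintro x hx rfl
    exact hb hx
  have hinj : Function.Injective (fun s : Finset {v // v ≠ v0} => s.map em) := Finset.map_injective _
  refine ⟨fun P => {s | s.map em ∈ P.1}, ?_, ?_, ?_, ?_⟩
  · rintro ⟨P, hP⟩ s hs
    have hs' : s.map em ∈ P := hs
    have hsB := (hP1 P hP).1 hs'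
    refine ⟨by rw [← card_map em]; exact h1.1 _ hsB, ?_, ?_⟩
    · intro p hp p' hp' hpp
      by_contra hne
      have h5 : cl p = cl p' := congrArg Subtype.val hpp
      have h6 : bl p = bl p' := same (hc1 p).1 (hc1 p).2 (h5 ▸ (hc1 p').2) (hb1 p).2.1 (hb1 p').2.1
      have h7 : s.map em = bl p := same2 hsB (hb1 p).1 (fun h => hne (Subtype.ext h))
        ((hem _ _).2 (mem_coe.1 hp)) ((hem _ _).2 (mem_coe.1 hp')) (hb1 p).2.2
        (h6 ▸ (hb1 p').2.2)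
      exact hem0 s (h7 ▸ (hb1 p).2.1)
    · intro p hp hπ
      have h5 : cl p = P := congrArg Subtype.val hπ
      have h6 : s.map em = bl p := same hP hs' (h5 ▸ (hc1 p).2) ((hem _ _).2 hp) (hb1 p).2.2
      exact hem0 s (h6 ▸ (hb1 p).2.1)
  · rintro ⟨P, hP⟩ p hp
    obtain ⟨b, ⟨hb, hpb⟩, hbu⟩ := (hP1 P hP).2 p.1
    have hb0 : v0 ∉ b := by
      intro hv
      apply hp
      apply Subtype.ext
      have h5 : b = bl p := hb2 p b ⟨(hP1 P hP).1 hb, hv, hpb⟩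
      exact (hc2 p P ⟨hP, h5 ▸ hb⟩).symm
    obtain ⟨s, rfl⟩ := lift b hb0
    refine ⟨s, ⟨hb, (hem _ _).1 hpb⟩, ?_⟩
    rintro s' ⟨hs', hp'⟩
    exact hinj (hbu (s'.map em) ⟨hs', (hem _ _).2 hp'⟩)
  · intro p p' hpp
    have hne : p.1 ≠ p'.1 := by
      intro h
      exact hpp (by rw [Subtype.ext h])
    obtain ⟨b, ⟨hb, hpb, hpb'⟩, hbu⟩ := h1.2 p.1 p'.1 hne
    have hb0 : v0 ∉ b := by
      intro hv
      apply hpp
      apply Subtype.ext
      have h5 : b = bl p := hb2 p b ⟨hb, hv, hpb⟩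
      have h6 : b = bl p' := hb2 p' b ⟨hb, hv, hpb'⟩
      exact hc2 p' (cl p) ⟨(hc1 p).1, by rw [← h6, h5]; exact (hc1 p).2⟩
    obtain ⟨s, rfl⟩ := lift b hb0
    obtain ⟨P, ⟨hP, hbP⟩, -⟩ := hP2 _ hb
    refine ⟨s, ⟨⟨⟨P, hP⟩, hbP⟩, (hem _ _).1 hpb, (hem _ _).1 hpb'⟩, ?_⟩
    rintro s' ⟨⟨⟨P', hP'⟩, hs'⟩, k1, k2⟩
    exact hinj (hbu (s'.map em) ⟨(hP1 P' hP').1 hs', (hem _ _).2 k1, (hem _ _).2 k2⟩)
  · rintro ⟨P, hP⟩ ⟨P', hP'⟩ s hs hs'
    apply Subtype.ext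
    have hs1 : s.map em ∈ P := hs
    have hs2 : s.map em ∈ P' := hs'
    obtain ⟨R, -, hR⟩ := hP2 _ ((hP1 P hP).1 hs1)
    exact (hR P ⟨hP, hs1⟩).trans (hR P' ⟨hP', hs2⟩).symm

/-- from a frame to a resolvable Steiner system -/
theorem res_of_AF {q k n : ℕ} (hq : 2 ≤ q) (hn : n = (q - 1) * k + 1)
    (h : AF q (Prod.fst : Fin k × Fin (q - 1) → Fin k)) :
    ∃ B : Finset (Finset (Fin n)), IsSt (Fin n) q B ∧ IsRes (Fin n) B := by
  classical
  obtain ⟨P, h1, h2, h3, h4⟩ := h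
  let V := Option (Fin k × Fin (q - 1))
  let em : (Fin k × Fin (q - 1)) ↪ V := Function.Embedding.some
  have hem : ∀ (s : Finset (Fin k × Fin (q - 1))) (p : Fin k × Fin (q - 1)),
      (some p : V) ∈ s.map em ↔ p ∈ s := by
    intro s p
    rw [mem_map]
    constructor
    · rintro ⟨w, hw, he⟩
      rwa [← Option.some.inj he]
    · intro hv
      exact ⟨p, hv, rfl⟩
  have hem0 : ∀ s : Finset (Fin k × Fin (q - 1)), (none : V) ∉ s.map em := by
    intro s h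
    obtain ⟨w, -, he⟩ := mem_map.1 h
    exact absurd he (by simp [em])
  have hinj : Function.Injective (fun s : Finset (Fin k × Fin (q - 1)) => s.map em) :=
    Finset.map_injective _
  let vt : Fin k → Finset V := fun x =>
    univ.filter fun p => p = none ∨ ∃ t, p = some (x, t)
  have vt0 : ∀ x, (none : V) ∈ vt x := by
    intro x
    simp [vt]
  have vt1 : ∀ x y t, (some (y, t) : V) ∈ vt x ↔ y = x := by
    intro x y t
    simp only [vt, mem_filter, mem_univ, true_and]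
    constructor
    · rintro (h | ⟨s, hs⟩)
      · exact absurd h (by simp)
      · exact (Prod.ext_iff.1 (Option.some.inj hs)).1
    · rintro rfl
      exact Or.inr ⟨t, rfl⟩
  have vtc : ∀ x, (vt x).card = q := by
    intro x
    have e1 : vt x = insert none (univ.image fun t : Fin (q - 1) => (some (x, t) : V)) := by
      ext p
      rcases p with _ | ⟨y, t⟩
      · simp [vt0]
      · rw [vt1, mem_insert, mem_image]
        constructor
        · rintro rfl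
          exact Or.inr ⟨t, mem_univ _, rfl⟩
        · rintro (h | ⟨s, -, hs⟩)
          · exact absurd h (by simp)
          · exact ((Prod.ext_iff.1 (Option.some.inj hs)).1).symm
    rw [e1, card_insert_of_notMem (by simp), card_image_of_injective, card_univ, Fintype.card_fin]
    · omega
    · intro s t h
      exact (Prod.ext_iff.1 (Option.some.inj h)).2
  let cls : Fin k → Finset (Finset V) := fun x =>
    univ.filter fun b => b = vt x ∨ ∃ s ∈ P x, b = s.map em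
  have mcls : ∀ x b, b ∈ cls x ↔ (b = vt x ∨ ∃ s ∈ P x, b = s.map em) := by
    intro x b
    simp [cls]
  let B : Finset (Finset V) := univ.biUnion cls
  have mB : ∀ b, b ∈ B ↔ ∃ x, b ∈ cls x := by
    intro b
    simp [B]
  have hSt : IsSt V q B := by
    constructor
    · intro b hb
      obtain ⟨x, hx⟩ := (mB b).1 hb
      rcases (mcls _ _).1 hx with rfl | ⟨s, hs, rfl⟩
      · exact vtc x
      · rw [card_map]
        exact (h1 x s hs).1
    · have key : ∀ p : Fin k × Fin (q - 1), ∃! b, b ∈ B ∧ (none : V) ∈ b ∧ (some p : V) ∈ b := by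
        rintro ⟨x, t⟩
        refine ⟨vt x, ⟨(mB _).2 ⟨x, (mcls _ _).2 (Or.inl rfl)⟩, vt0 x, (vt1 _ _ _).2 rfl⟩, ?_⟩
        rintro b ⟨hb, k1, k2⟩
        obtain ⟨y, hy⟩ := (mB b).1 hb
        rcases (mcls _ _).1 hy with rfl | ⟨s, hs, rfl⟩
        · rw [(vt1 _ _ _).1 k2]
        · exact absurd k1 (hem0 s)
      intro p p' hpp
      rcases p with _ | ⟨x, t⟩
      · rcases p' with _ | p'
        · exact absurd rfl hpp
        · exact key p'
      · rcases p' with _ | ⟨y, t'⟩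
        · obtain ⟨b, ⟨k1, k2, k3⟩, k4⟩ := key (x, t)
          exact ⟨b, ⟨k1, k3, k2⟩, fun c hc => k4 c ⟨hc.1, hc.2.2, hc.2.1⟩⟩
        · by_cases hxy : x = y
          · subst hxy
            refine ⟨vt x, ⟨(mB _).2 ⟨x, (mcls _ _).2 (Or.inl rfl)⟩, (vt1 _ _ _).2 rfl,
              (vt1 _ _ _).2 rfl⟩, ?_⟩
            rintro b ⟨hb, k1, k2⟩
            obtain ⟨y, hy⟩ := (mB b).1 hb
            rcases (mcls _ _).1 hy with rfl | ⟨s, hs, rfl⟩
            · rw [(vt1 _ _ _).1 k2]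
            · exfalso
              apply hpp
              have := (h1 y s hs).2.1 (mem_coe.2 ((hem _ _).1 k1)) (mem_coe.2 ((hem _ _).1 k2)) rfl
              rw [this]
          · obtain ⟨s, ⟨⟨z, hz⟩, k1, k2⟩, hu⟩ := h3 (x, t) (y, t') hxy
            refine ⟨s.map em, ⟨(mB _).2 ⟨z, (mcls _ _).2 (Or.inr ⟨s, hz, rfl⟩)⟩, (hem _ _).2 k1,
              (hem _ _).2 k2⟩, ?_⟩
            rintro b ⟨hb, g1, g2⟩
            obtain ⟨w, hw⟩ := (mB b).1 hb
            rcases (mcls _ _).1 hw with rfl | ⟨s', hs', rfl⟩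
            · exact absurd (((vt1 _ _ _).1 g1).trans ((vt1 _ _ _).1 g2).symm) hxy
            · rw [hu s' ⟨⟨w, hs'⟩, (hem _ _).1 g1, (hem _ _).1 g2⟩]
  have hRes : IsRes V B := by
    refine ⟨univ.image cls, ?_, ?_⟩
    · intro Q hQ
      obtain ⟨x, -, rfl⟩ := mem_image.1 hQ
      refine ⟨fun b hb => (mB b).2 ⟨x, hb⟩, ?_⟩
      intro p
      rcases p with _ | ⟨y, t⟩
      · refine ⟨vt x, ⟨(mcls _ _).2 (Or.inl rfl), vt0 x⟩, ?_⟩
        rintro b ⟨hb, k1⟩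
        rcases (mcls _ _).1 hb with rfl | ⟨s, hs, rfl⟩
        · rfl
        · exact absurd k1 (hem0 s)
      · by_cases hyx : y = x
        · subst hyx
          refine ⟨vt y, ⟨(mcls _ _).2 (Or.inl rfl), (vt1 _ _ _).2 rfl⟩, ?_⟩
          rintro b ⟨hb, k1⟩
          rcases (mcls _ _).1 hb with rfl | ⟨s, hs, rfl⟩
          · rfl
          · exact absurd rfl ((h1 y s hs).2.2 _ ((hem _ _).1 k1))
        · obtain ⟨s, ⟨hs, k1⟩, hu⟩ := h2 x (y, t) hyx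
          refine ⟨s.map em, ⟨(mcls _ _).2 (Or.inr ⟨s, hs, rfl⟩), (hem _ _).2 k1⟩, ?_⟩
          rintro b ⟨hb, g1⟩
          rcases (mcls _ _).1 hb with rfl | ⟨s', hs', rfl⟩
          · exact absurd ((vt1 _ _ _).1 g1) hyx
          · rw [hu s' ⟨hs', (hem _ _).1 g1⟩]
    · intro b hb
      obtain ⟨x, hx⟩ := (mB b).1 hb
      refine ⟨cls x, ⟨mem_image_of_mem _ (mem_univ _), hx⟩, ?_⟩
      rintro Q ⟨hQ, hbQ⟩
      obtain ⟨y, -, rfl⟩ := mem_image.1 hQ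
      have hxy : y = x := by
        rcases (mcls _ _).1 hx with rfl | ⟨s, hs, rfl⟩
        · rcases (mcls _ _).1 hbQ with h5 | ⟨s', hs', h5⟩
          · have : (some (x, ⟨0, by omega⟩) : V) ∈ vt x := (vt1 _ _ _).2 rfl
            rw [h5] at this
            exact ((vt1 _ _ _).1 this).symm
          · exact absurd (h5 ▸ vt0 x) (hem0 s')
        · rcases (mcls _ _).1 hbQ with h5 | ⟨s', hs', h5⟩
          · exact absurd (h5 ▸ vt0 y) (hem0 s)
          · rw [← hinj h5] at hs'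
            exact h4 _ _ s hs' hs
      rw [hxy]
  have hcard : Fintype.card V = n := by
    rw [Fintype.card_option, Fintype.card_prod, Fintype.card_fin, Fintype.card_fin, hn, mul_comm]
  exact transport (Fintype.equivFinOfCardEq hcard) hSt hRes

end Pool.Agent.X172.Fr
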