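import Pool.Agent.X172.ManyS.Frame

/-! The resolvable Steiner system on the external lines of a hyperoval in the plane of order `2 q`. -/

set_option autoImplicit false

namespace Pool.Agent.X172.Hyp

open Finset Pool.Agent.X172.Res Pool.Agent.X172.Fr

variable {F : Type} [Field F] [Fintype F] [CharP F 2]

/-- the map `z ↦ z ^ 2 + z` -/
def φ (F : Type) [Field F] [CharP F 2] : F →+ F where
  toFun z := z ^ 2 + z
  map_zero' := by simp
  map_add' a b := by
    rw [CharTwo.add_sq]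
    ring

/-- its image -/
def W (F : Type) [Field F] [CharP F 2] : AddSubgroup F := (φ F).range

lemma mem_W (z : F) : z ^ 2 + z ∈ W F := ⟨z, rfl⟩

lemma card_W {q : ℕ} (hF : Fintype.card F = 2 * q) : Nat.card (W F) = q := by
  have h1 : Nat.card F = Nat.card (F ⧸ (φ F).ker) * Nat.card (φ F).ker :=
    AddSubgroup.card_eq_card_quotient_mul_card_addSubgroup _
  have h2 : Nat.card (F ⧸ (φ F).ker) = Nat.card (W F) :=
    Nat.card_congr (QuotientAddGroup.quotientKerEquivRange (φ F)).toEquiv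
  have h3 : Nat.card (φ F).ker = 2 := by
    have h4 : ((φ F).ker : Set F) = {0, 1} := by
      ext z
      rw [SetLike.mem_coe, AddMonoidHom.mem_ker]
      change z ^ 2 + z = 0 ↔ z = 0 ∨ z = 1
      constructor
      · intro h
        have h5 : z * (z + 1) = 0 := by rw [← h]; ring
        rcases mul_eq_zero.1 h5 with h6 | h6
        · exact Or.inl h6
        · right
          have h7 : z = -1 := eq_neg_of_add_eq_zero_left h6
          rw [h7, CharTwo.neg_eq]
      · rintro (rfl | rfl)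
        · simp
        · rw [one_pow]
          exact CharTwo.add_self_eq_zero 1
    have h5 : Nat.card (φ F).ker = Set.ncard ((φ F).ker : Set F) := rfl
    rw [h5, h4, Set.ncard_pair zero_ne_one]
  rw [h2, h3, Nat.card_eq_fintype_card (α := F), hF] at h1
  omega

open scoped Classical in
lemma card_T {q : ℕ} (hF : Fintype.card F = 2 * q) :
    (univ.filter fun β : F => β ∉ W F).card = q := by
  have h1 := Finset.card_filter_add_card_filter_not (s := (univ : Finset F)) (fun β : F => β ∈ W F)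
  have h2 : (univ.filter fun β : F => β ∈ W F).card = q := by
    rw [← card_W hF, Nat.card_eq_fintype_card, Fintype.card_subtype]
  rw [card_univ, hF, h2] at h1
  omega

open scoped Classical in
lemma card_mul {q : ℕ} (hF : Fintype.card F = 2 * q) {c : F} (hc : c ≠ 0) :
    (univ.filter fun w : F => c * w ∉ W F).card = q := by
  rw [← card_T hF]
  refine Finset.card_bij (fun w _ => c * w) ?_ ?_ ?_
  · intro w hw
    rw [mem_filter] at hw ⊢
    exact ⟨mem_univ _, hw.2⟩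
  · intro w _ w' _ h
    exact mul_left_cancel₀ hc h
  · intro β hβ
    rw [mem_filter] at hβ
    refine ⟨c⁻¹ * β, ?_, ?_⟩
    · rw [mem_filter, mul_inv_cancel_left₀ hc]
      exact ⟨mem_univ _, hβ.2⟩
    · rw [mul_inv_cancel_left₀ hc]

lemma exists_sqrt (y : F) : ∃ s, s ^ 2 = y := by
  have h1 : ringChar F = 2 := ringChar.eq F 2 |>.symm ▸ rfl
  obtain ⟨s, hs⟩ := FiniteField.isSquare_of_char_two h1 y
  exact ⟨s, by rw [hs]; ring⟩

lemma key {x y s : F} (hs : s ^ 2 = y) (w : F) : y * w ^ 2 + x * w ∈ W F ↔ (s + x) * w ∈ W F := by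
  have h1 : y * w ^ 2 + x * w = (s + x) * w + ((s * w) ^ 2 + s * w) := by
    have h2 : s * w + s * w = 0 := CharTwo.add_self_eq_zero _
    linear_combination (-w ^ 2) * hs - h2
  rw [h1]
  exact AddSubgroup.add_mem_cancel_right _ (mem_W _)

/-- the points -/
abbrev Pt (F : Type) [Field F] [CharP F 2] : Type := {w : F // w ≠ 0} × {β : F // β ∉ W F}

open scoped Classical in
/-- the vertical blocks -/
noncomputable def vt (w : {w : F // w ≠ 0}) : Finset (Pt F) := univ.filter fun p => p.1 = w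

open scoped Classical in
/-- the other blocks -/
noncomputable def hz (x y : F) : Finset (Pt F) :=
  univ.filter fun p => p.2.1 = y * p.1.1 ^ 2 + x * p.1.1

lemma mem_vt (w : {w : F // w ≠ 0}) (p : Pt F) : p ∈ vt w ↔ p.1 = w := by
  simp [vt]

lemma mem_hz (x y : F) (p : Pt F) : p ∈ hz x y ↔ p.2.1 = y * p.1.1 ^ 2 + x * p.1.1 := by
  simp [hz]

lemma card_vt {q : ℕ} (hF : Fintype.card F = 2 * q) (w : {w : F // w ≠ 0}) : (vt w).card = q := by
  classical
  rw [← card_T hF]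
  refine Finset.card_bij (fun p _ => p.2.1) ?_ ?_ ?_
  · intro p _
    rw [mem_filter]
    exact ⟨mem_univ _, p.2.2⟩
  · rintro ⟨a, b⟩ hp ⟨a', b'⟩ hp' h
    rw [mem_vt] at hp hp'
    simp only at hp hp' h
    rw [hp, hp', Subtype.ext h]
  · intro β hβ
    rw [mem_filter] at hβ
    exact ⟨(w, ⟨β, hβ.2⟩), (mem_vt _ _).2 rfl, rfl⟩

lemma card_hz {q : ℕ} (hF : Fintype.card F = 2 * q) {x y : F} (hxy : y ≠ x ^ 2) :
    (hz x y).card = q := by
  classical
  obtain ⟨s, hs⟩ := exists_sqrt y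
  have hc : s + x ≠ 0 := by
    intro h
    apply hxy
    have h1 : s = x := by
      have := eq_neg_of_add_eq_zero_left h
      rwa [CharTwo.neg_eq] at this
    rw [← hs, h1]
  rw [← card_mul hF hc]
  refine Finset.card_bij (fun p _ => p.1.1) ?_ ?_ ?_
  · intro p hp
    rw [mem_hz] at hp
    rw [mem_filter]
    refine ⟨mem_univ _, fun h => p.2.2 ?_⟩
    rw [hp]
    exact (key hs _).2 h
  · rintro ⟨a, b⟩ hp ⟨a', b'⟩ hp' h
    rw [mem_hz] at hp hp'
    simp only at hp hp' h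
    have h1 : a = a' := Subtype.ext h
    subst h1
    rw [Prod.mk.injEq]
    exact ⟨rfl, Subtype.ext (hp.trans hp'.symm)⟩
  · intro w hw
    rw [mem_filter] at hw
    have hw0 : w ≠ 0 := by
      rintro rfl
      apply hw.2
      rw [mul_zero]
      exact (W F).zero_mem
    exact ⟨(⟨w, hw0⟩, ⟨y * w ^ 2 + x * w, fun h => hw.2 ((key hs w).1 h)⟩), (mem_hz _ _ _).2 rfl, rfl⟩

/-- the block through two points with different first coordinates -/
lemma through (p p' : Pt F) (h : p.1 ≠ p'.1) : ∃ x y : F, y ≠ x ^ 2 ∧ p ∈ hz x y ∧ p' ∈ hz x y ∧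
    ∀ x' y' : F, p ∈ hz x' y' → p' ∈ hz x' y' → x' = x ∧ y' = y := by
  obtain ⟨⟨a, ha⟩, ⟨β, hβ⟩⟩ := p
  obtain ⟨⟨b, hb⟩, ⟨γ, hγ⟩⟩ := p'
  have hab : a - b ≠ 0 := sub_ne_zero.2 (fun h' => h (Subtype.ext h'))
  have hD : a * b * (a - b) ≠ 0 := mul_ne_zero (mul_ne_zero ha hb) hab
  obtain ⟨y, hy⟩ : ∃ y, y = (β * b - γ * a) / (a * b * (a - b)) := ⟨_, rfl⟩
  obtain ⟨x, hx⟩ : ∃ x, x = (γ * a ^ 2 - β * b ^ 2) / (a * b * (a - b)) := ⟨_, rfl⟩
  have hy' : y * (a * b * (a - b)) = β * b - γ * a := by rw [hy, div_mul_cancel₀ _ hD]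
  have hx' : x * (a * b * (a - b)) = γ * a ^ 2 - β * b ^ 2 := by rw [hx, div_mul_cancel₀ _ hD]
  have e1 : β = y * a ^ 2 + x * a := by
    have h1 : (y * a ^ 2 + x * a - β) * (a * b * (a - b)) = 0 := by
      linear_combination a ^ 2 * hy' + a * hx'
    rcases mul_eq_zero.1 h1 with h2 | h2
    · linear_combination -h2
    · exact absurd h2 hD
  have e2 : γ = y * b ^ 2 + x * b := by
    have h1 : (y * b ^ 2 + x * b - γ) * (a * b * (a - b)) = 0 := by
      linear_combination b ^ 2 * hy' + b * hx'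
    rcases mul_eq_zero.1 h1 with h2 | h2
    · linear_combination -h2
    · exact absurd h2 hD
  refine ⟨x, y, ?_, (mem_hz _ _ _).2 e1, (mem_hz _ _ _).2 e2, ?_⟩
  · intro h3
    apply hβ
    rw [e1, h3]
    have : x ^ 2 * a ^ 2 + x * a = (x * a) ^ 2 + x * a := by ring
    rw [this]
    exact mem_W _
  · intro x' y' h1 h2
    rw [mem_hz] at h1 h2
    simp only at h1 h2
    have k1 : (y' - y) * (a * b * (a - b)) = 0 := by
      linear_combination (-b) * h1 + a * h2 + b * e1 - a * e2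
    have k2 : y' = y := by
      rcases mul_eq_zero.1 k1 with h3 | h3
      · linear_combination h3
      · exact absurd h3 hD
    subst k2
    have k3 : (x' - x) * a = 0 := by linear_combination e1 - h1
    rcases mul_eq_zero.1 k3 with h3 | h3
    · exact ⟨by linear_combination h3, rfl⟩
    · exact absurd h3 ha

open scoped Classical in
/-- the parallel classes -/
noncomputable def cls : Option F → Finset (Finset (Pt F))
  | none => univ.image vt
  | some x => (univ.filter fun y : F => y ≠ x ^ 2).image (hz x)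

lemma mem_cls_none (b : Finset (Pt F)) : b ∈ cls (none : Option F) ↔ ∃ w, vt w = b := by
  classical
  unfold cls
  rw [mem_image]
  simp

lemma mem_cls_some (x : F) (b : Finset (Pt F)) : b ∈ cls (some x) ↔ ∃ y, y ≠ x ^ 2 ∧ hz x y = b := by
  classical
  unfold cls
  rw [mem_image]
  simp

/-- two points of a horizontal block -/
lemma two_points {q : ℕ} (hq : 2 ≤ q) (hF : Fintype.card F = 2 * q) {x y : F} (hxy : y ≠ x ^ 2) :
    ∃ p p' : Pt F, p.1 ≠ p'.1 ∧ p ∈ hz x y ∧ p' ∈ hz x y := by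
  have h1 : 1 < (hz x y).card := by rw [card_hz hF hxy]; omega
  obtain ⟨p, hp, p', hp', hne⟩ := one_lt_card.1 h1
  refine ⟨p, p', fun h => hne ?_, hp, hp'⟩
  rw [mem_hz] at hp hp'
  refine Prod.ext h (Subtype.ext ?_)
  rw [hp, hp', h]

lemma hz_ne_vt {q : ℕ} (hq : 2 ≤ q) (hF : Fintype.card F = 2 * q) {x y : F} (hxy : y ≠ x ^ 2)
    (w : {w : F // w ≠ 0}) : hz x y ≠ vt w := by
  intro h
  obtain ⟨p, p', hne, hp, hp'⟩ := two_points hq hF hxy
  rw [h, mem_vt] at hp hp'
  exact hne (hp.trans hp'.symm)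

lemma hz_inj {q : ℕ} (hq : 2 ≤ q) (hF : Fintype.card F = 2 * q) {x y x' y' : F} (hxy : y ≠ x ^ 2)
    (h : hz x y = hz x' y') : x = x' ∧ y = y' := by
  obtain ⟨p, p', hne, hp, hp'⟩ := two_points hq hF hxy
  obtain ⟨x0, y0, -, -, -, hu⟩ := through p p' hne
  have h1 := hu x y hp hp'
  have h2 := hu x' y' (h ▸ hp) (h ▸ hp')
  exact ⟨h1.1.trans h2.1.symm, h1.2.trans h2.2.symm⟩

theorem frame_hyp {q : ℕ} (hq : 2 ≤ q) (hF : Fintype.card F = 2 * q) :
    AF q (Prod.fst : Fin (2 * q + 1) × Fin (q - 1) → Fin (2 * q + 1)) := by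
  classical
  let B : Finset (Finset (Pt F)) := univ.biUnion (cls (F := F))
  have mB : ∀ b, b ∈ B ↔ ∃ o, b ∈ cls o := by
    intro b
    simp [B]
  have mB' : ∀ b, b ∈ B ↔ (∃ w, vt w = b) ∨ ∃ x y, y ≠ x ^ 2 ∧ hz x y = b := by
    intro b
    rw [mB]
    constructor
    · rintro ⟨o, ho⟩
      rcases o with _ | x
      · exact Or.inl ((mem_cls_none b).1 ho)
      · exact Or.inr ⟨x, (mem_cls_some x b).1 ho⟩
    · rintro (h | ⟨x, h⟩)
      · exact ⟨none, (mem_cls_none b).2 h⟩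
      · exact ⟨some x, (mem_cls_some x b).2 h⟩
  have hSt : IsSt (Pt F) q B := by
    constructor
    · intro b hb
      rcases (mB' b).1 hb with ⟨w, rfl⟩ | ⟨x, y, hxy, rfl⟩
      · exact card_vt hF w
      · exact card_hz hF hxy
    · intro p p' hpp
      by_cases h1 : p.1 = p'.1
      · refine ⟨vt p.1, ⟨(mB' _).2 (Or.inl ⟨_, rfl⟩), (mem_vt _ _).2 rfl, (mem_vt _ _).2 h1.symm⟩, ?_⟩
        rintro b ⟨hb, k1, k2⟩
        rcases (mB' b).1 hb with ⟨w, rfl⟩ | ⟨x, y, hxy, rfl⟩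
        · rw [(mem_vt _ _).1 k1]
        · exfalso
          rw [mem_hz] at k1 k2
          exact hpp (Prod.ext h1 (Subtype.ext (by rw [k1, k2, h1])))
      · obtain ⟨x, y, hxy, g1, g2, hu⟩ := through p p' h1
        refine ⟨hz x y, ⟨(mB' _).2 (Or.inr ⟨x, y, hxy, rfl⟩), g1, g2⟩, ?_⟩
        rintro b ⟨hb, k1, k2⟩
        rcases (mB' b).1 hb with ⟨w, rfl⟩ | ⟨x', y', hxy', rfl⟩
        · rw [mem_vt] at k1 k2
          exact absurd (k1.trans k2.symm) h1
        · obtain ⟨e1, e2⟩ := hu x' y' k1 k2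
          rw [e1, e2]
  have cover : ∀ (o : Option F) (p : Pt F), ∃! b, b ∈ cls o ∧ p ∈ b := by
    intro o p
    rcases o with _ | x
    · refine ⟨vt p.1, ⟨(mem_cls_none _).2 ⟨_, rfl⟩, (mem_vt _ _).2 rfl⟩, ?_⟩
      rintro b ⟨hb, hp⟩
      obtain ⟨w, rfl⟩ := (mem_cls_none b).1 hb
      rw [(mem_vt _ _).1 hp]
    · have hw : p.1.1 ≠ 0 := p.1.2
      obtain ⟨y, hy⟩ : ∃ y, p.2.1 = y * p.1.1 ^ 2 + x * p.1.1 := by
        refine ⟨(p.2.1 - x * p.1.1) / p.1.1 ^ 2, ?_⟩
        field_simp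
        ring
      have hyx : y ≠ x ^ 2 := by
        rintro rfl
        apply p.2.2
        rw [hy]
        have : x ^ 2 * p.1.1 ^ 2 + x * p.1.1 = (x * p.1.1) ^ 2 + x * p.1.1 := by ring
        rw [this]
        exact mem_W _
      refine ⟨hz x y, ⟨(mem_cls_some _ _).2 ⟨y, hyx, rfl⟩, (mem_hz _ _ _).2 hy⟩, ?_⟩
      rintro b ⟨hb, hp⟩
      obtain ⟨y', -, rfl⟩ := (mem_cls_some x b).1 hb
      rw [mem_hz, hy] at hp
      have h5 : (y - y') * p.1.1 ^ 2 = 0 := by linear_combination hp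
      rcases mul_eq_zero.1 h5 with h6 | h6
      · rw [sub_eq_zero.1 h6]
      · exact absurd h6 (pow_ne_zero 2 hw)
  have disj : ∀ (o o' : Option F) b, b ∈ cls o → b ∈ cls o' → o = o' := by
    intro o o' b h1 h2
    rcases o with _ | x
    · rcases o' with _ | x'
      · rfl
      · obtain ⟨w, rfl⟩ := (mem_cls_none b).1 h1
        obtain ⟨y, hy, h3⟩ := (mem_cls_some _ _).1 h2
        exact absurd h3 (hz_ne_vt hq hF hy w)
    · rcases o' with _ | x'
      · obtain ⟨w, rfl⟩ := (mem_cls_none b).1 h2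
        obtain ⟨y, hy, h3⟩ := (mem_cls_some _ _).1 h1
        exact absurd h3 (hz_ne_vt hq hF hy w)
      · obtain ⟨y, hy, rfl⟩ := (mem_cls_some _ _).1 h1
        obtain ⟨y', hy', h3⟩ := (mem_cls_some _ _).1 h2
        rw [(hz_inj hq hF hy' h3).1]
  -- a point
  have hTne : (univ.filter fun β : F => β ∉ W F).Nonempty := by
    rw [← card_pos, card_T hF]
    omega
  obtain ⟨β0, hβ0⟩ := hTne
  let v0 : Pt F := (⟨1, one_ne_zero⟩, ⟨β0, (mem_filter.1 hβ0).2⟩)
  have hinj : Function.Injective (cls (F := F)) := by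
    intro o o' h
    obtain ⟨b, ⟨hb, -⟩, -⟩ := cover o v0
    exact disj o o' b hb (h ▸ hb)
  refine AF_of_res hq hSt (𝓟 := univ.image cls) ?_ ?_ v0 ?_
  · intro P hP
    obtain ⟨o, -, rfl⟩ := mem_image.1 hP
    exact ⟨fun b hb => (mB b).2 ⟨o, hb⟩, cover o⟩
  · intro b hb
    obtain ⟨o, ho⟩ := (mB b).1 hb
    refine ⟨cls o, ⟨mem_image_of_mem _ (mem_univ _), ho⟩, ?_⟩
    rintro P ⟨hP, hbP⟩
    obtain ⟨o', -, rfl⟩ := mem_image.1 hP
    rw [disj o o' b ho hbP]
  · rw [card_image_of_injective _ hinj, card_univ, Fintype.card_option, hF]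

end Pool.Agent.X172.Hyp
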