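import Pool.Agent.X172.ManyS.Core
import Pool.Agent.H108R2.Bound3

/-! Many Steiner systems `S(n,q,2)`: the general theorem. -/

set_option autoImplicit false

namespace Pool.Agent.X172.ManyS

open Finset H108 Pool.Agent.W855 Pool.Agent.W865.SS Pool.Agent.X18.SEmb

/-- the pairwise balanced design of a transversal design with `K` groups of size `g` -/
theorem pbd_of_oa {K g : ℕ} (hK : 2 ≤ K) (hO : OA K g) :
    ∃ 𝓑 : Finset (Finset (Fin (K * g))), IsPBD (K * g) 𝓑 ∧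
      (∀ b ∈ 𝓑, b.card = K ∨ b.card = g) ∧ g ^ 2 ≤ 𝓑.card := by
  classical
  obtain ⟨W, hW⟩ := hO
  obtain ⟨e, he⟩ : ∃ e : Fin K × Fin g ≃ Fin (K * g), e = finProdFinEquiv := ⟨_, rfl⟩
  clear he
  have i0 : Fin K := ⟨0, by omega⟩
  obtain ⟨i0, hi0⟩ : ∃ i : Fin K, i = ⟨0, by omega⟩ := ⟨_, rfl⟩
  obtain ⟨i1, hi1⟩ : ∃ i : Fin K, i = ⟨1, by omega⟩ := ⟨_, rfl⟩
  have h01 : i0 ≠ i1 := by rw [hi0, hi1]; simp
  have hw : ∀ a b : Fin g, ∃ w, (w ∈ W ∧ w i0 = a ∧ w i1 = b) ∧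
      ∀ v, v ∈ W ∧ v i0 = a ∧ v i1 = b → v = w := fun a b => hW i0 i1 h01 a b
  choose w hw1 hw2 using hw
  let blk : (Fin K → Fin g) → Finset (Fin (K * g)) := fun v =>
    univ.map ⟨fun i => e (i, v i), fun i j h => (Prod.ext_iff.1 (e.injective h)).1⟩
  let grp : Fin K → Finset (Fin (K * g)) := fun i =>
    univ.map ⟨fun a => e (i, a), fun a b h => (Prod.ext_iff.1 (e.injective h)).2⟩
  have mblk : ∀ v i a, e (i, a) ∈ blk v ↔ v i = a := by
    intro v i a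
    simp only [blk, mem_map, mem_univ, true_and]
    constructor
    · rintro ⟨j, hj⟩
      have h1 := Prod.ext_iff.1 (e.injective hj)
      have h2 : j = i := h1.1
      subst h2
      exact h1.2
    · rintro rfl
      exact ⟨i, rfl⟩
  have mgrp : ∀ j i a, e (i, a) ∈ grp j ↔ i = j := by
    intro j i a
    simp only [grp, mem_map, mem_univ, true_and]
    constructor
    · rintro ⟨b, hb⟩
      exact (Prod.ext_iff.1 (e.injective hb)).1.symm
    · rintro rfl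
      exact ⟨a, rfl⟩
  refine ⟨(univ.image fun p : Fin g × Fin g => blk (w p.1 p.2)) ∪ univ.image grp, ?_, ?_, ?_⟩
  · intro T hT
    obtain ⟨x, y, hxy, rfl⟩ := card_eq_two.1 hT
    obtain ⟨⟨i, a⟩, rfl⟩ := e.surjective x
    obtain ⟨⟨j, b⟩, rfl⟩ := e.surjective y
    have hsub : ∀ s : Finset (Fin (K * g)), ({e (i, a), e (j, b)} : Finset (Fin (K * g))) ⊆ s ↔
        e (i, a) ∈ s ∧ e (j, b) ∈ s := by
      intro s
      rw [insert_subset_iff, singleton_subset_iff]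
    by_cases hij : i = j
    · subst hij
      have hab : a ≠ b := fun h => hxy (by rw [h])
      refine ⟨grp i, ⟨mem_union_right _ (mem_image_of_mem _ (mem_univ _)), ?_⟩, ?_⟩
      · rw [hsub]
        exact ⟨(mgrp _ _ _).2 rfl, (mgrp _ _ _).2 rfl⟩
      · rintro c ⟨hc, hTc⟩
        rw [hsub] at hTc
        rcases mem_union.1 hc with hc | hc
        · obtain ⟨p, -, rfl⟩ := mem_image.1 hc
          exact absurd ((mblk _ _ _).1 hTc.1 ▸ (mblk _ _ _).1 hTc.2) (by simpa using hab)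
        · obtain ⟨j', -, rfl⟩ := mem_image.1 hc
          rw [(mgrp _ _ _).1 hTc.1]
    · obtain ⟨v, ⟨hv, hva, hvb⟩, hvu⟩ := hW i j hij a b
      have hvw : v = w (v i0) (v i1) := hw2 _ _ v ⟨hv, rfl, rfl⟩
      refine ⟨blk v, ⟨mem_union_left _ (mem_image.2 ⟨(v i0, v i1), mem_univ _, ?_⟩), ?_⟩, ?_⟩
      · rw [← hvw]
      · rw [hsub]
        exact ⟨(mblk _ _ _).2 hva, (mblk _ _ _).2 hvb⟩
      · rintro c ⟨hc, hTc⟩
        rw [hsub] at hTc
        rcases mem_union.1 hc with hc | hc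
        · obtain ⟨p, -, rfl⟩ := mem_image.1 hc
          have h3 := hvu (w p.1 p.2) ⟨(hw1 _ _).1, (mblk _ _ _).1 hTc.1, (mblk _ _ _).1 hTc.2⟩
          rw [h3]
        · obtain ⟨j', -, rfl⟩ := mem_image.1 hc
          exact absurd (((mgrp _ _ _).1 hTc.1).trans ((mgrp _ _ _).1 hTc.2).symm) hij
  · intro b hb
    rcases mem_union.1 hb with hb | hb
    · obtain ⟨p, -, rfl⟩ := mem_image.1 hb
      left
      simp [blk]
    · obtain ⟨p, -, rfl⟩ := mem_image.1 hb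
      right
      simp [grp]
  · have hinj : Function.Injective (fun p : Fin g × Fin g => blk (w p.1 p.2)) := by
      intro p p' h
      have h1 : ∀ i, w p.1 p.2 i = w p'.1 p'.2 i := by
        intro i
        have h2 : e (i, w p'.1 p'.2 i) ∈ blk (w p'.1 p'.2) := (mblk _ _ _).2 rfl
        have h3 : e (i, w p'.1 p'.2 i) ∈ blk (w p.1 p.2) := by
          have : blk (w p.1 p.2) = blk (w p'.1 p'.2) := h
          rw [this]
          exact h2
        exact (mblk _ _ _).1 h3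
      have h4 := h1 i0
      have h5 := h1 i1
      rw [(hw1 _ _).2.1, (hw1 _ _).2.1] at h4
      rw [(hw1 _ _).2.2, (hw1 _ _).2.2] at h5
      exact Prod.ext h4 h5
    have h1 := card_image_of_injective (univ : Finset (Fin g × Fin g)) hinj
    rw [card_univ, Fintype.card_prod, Fintype.card_fin] at h1
    calc g ^ 2 = g * g := by ring
      _ ≤ _ := by rw [← h1]; exact card_le_card subset_union_left

lemma sq_le_log {n : ℕ} (hn : 1 ≤ n) : (Nat.log 2 n + 1) ^ 2 ≤ 4 * n := by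
  have key : ∀ l : ℕ, (l + 1) ^ 2 ≤ 4 * 2 ^ l := by
    intro l
    induction l with
    | zero => norm_num
    | succ l ih =>
      rcases Nat.lt_or_ge l 2 with h | h
      · interval_cases l <;> norm_num
      · rw [pow_succ 2]
        nlinarith
  refine (key _).trans (Nat.mul_le_mul_left 4 ?_)
  exact Nat.pow_log_le_self 2 (by omega)

lemma fact_le {n : ℕ} (hn : 1 ≤ n) : n.factorial ≤ 2 ^ ((Nat.log 2 n + 1) * n) := by
  refine (Nat.factorial_le_pow n).trans ?_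
  rw [pow_mul]
  exact Nat.pow_le_pow_left (Nat.lt_pow_succ_log_self (by norm_num) n).le n

/-- the final count -/
lemma final_count {n N c s f : ℕ} (hN : 3 ≤ N) (hn : N ^ (2 * c + 4) ≤ n) (hs : n ^ 2 ≤ N ^ c * s)
    (hf : 2 ^ s ≤ n.factorial * f) : 2 ^ (n ^ 2 / N ^ (c + 1)) ≤ f := by
  have hn1 : 1 ≤ n := (Nat.one_le_pow _ _ (by omega)).trans hn
  obtain ⟨L, hL⟩ : ∃ L, L = Nat.log 2 n + 1 := ⟨_, rfl⟩
  obtain ⟨P, hP⟩ : ∃ P, P = N ^ c := ⟨_, rfl⟩
  have hP1 : 1 ≤ P := by rw [hP]; exact Nat.one_le_pow _ _ (by omega)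
  have hL2 : L ^ 2 ≤ 4 * n := by rw [hL]; exact sq_le_log hn1
  have h1 : 2 * P * L ≤ n := by
    by_contra hcon
    push Not at hcon
    have h2 : n ^ 2 < (2 * P * L) ^ 2 := Nat.pow_lt_pow_left hcon (by norm_num)
    have h3 : (2 * P * L) ^ 2 ≤ 16 * P ^ 2 * n := by
      have : (2 * P * L) ^ 2 = 4 * P ^ 2 * L ^ 2 := by ring
      rw [this]
      calc 4 * P ^ 2 * L ^ 2 ≤ 4 * P ^ 2 * (4 * n) := Nat.mul_le_mul_left _ hL2
        _ = 16 * P ^ 2 * n := by ring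
    have h4 : 16 * P ^ 2 ≤ n := by
      refine le_trans ?_ hn
      rw [pow_add, mul_comm 2 c, pow_mul, ← hP]
      have : 16 ≤ N ^ 4 := by
        calc 16 ≤ 3 ^ 4 := by norm_num
          _ ≤ N ^ 4 := Nat.pow_le_pow_left hN 4
      nlinarith
    have h5 : 16 * P ^ 2 * n ≤ n * n := Nat.mul_le_mul_right n h4
    nlinarith
  obtain ⟨E, hE⟩ : ∃ E, E = n ^ 2 / N ^ (c + 1) := ⟨_, rfl⟩
  have h6 : N * P * E ≤ n ^ 2 := by
    have := Nat.div_mul_le_self (n ^ 2) (N ^ (c + 1))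
    rw [← hE, pow_succ, ← hP] at this
    nlinarith
  have h7 : L * n + E ≤ s := by
    have h8 : P * (L * n + E) ≤ P * s := by
      rw [← hP] at hs
      have h9 : 2 * (P * (L * n + E)) ≤ 2 * n ^ 2 := by
        have h10 : 2 * (P * (L * n)) ≤ n ^ 2 := by
          calc 2 * (P * (L * n)) = (2 * P * L) * n := by ring
            _ ≤ n * n := Nat.mul_le_mul_right n h1
            _ = n ^ 2 := by ring
        have h11 : 2 * (P * E) ≤ n ^ 2 := by
          refine le_trans ?_ h6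
          have : 2 * (P * E) ≤ N * (P * E) := Nat.mul_le_mul_right _ (by omega)
          nlinarith
        nlinarith
      nlinarith
    exact Nat.le_of_mul_le_mul_left h8 hP1
  have h12 : 2 ^ (L * n) * 2 ^ E ≤ 2 ^ (L * n) * f := by
    calc 2 ^ (L * n) * 2 ^ E = 2 ^ (L * n + E) := by rw [pow_add]
      _ ≤ 2 ^ s := Nat.pow_le_pow_right (by norm_num) h7
      _ ≤ n.factorial * f := hf
      _ ≤ 2 ^ (L * n) * f := Nat.mul_le_mul_right f (by rw [hL]; exact fact_le hn1)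
  rw [← hE]
  exact Nat.le_of_mul_le_mul_left h12 (by positivity)

lemma adm_mod {q t : ℕ} (hq : 3 ≤ q) : Adm q (q * (q - 1) * t + 1) := by
  refine ⟨?_, ?_, by omega⟩
  · rw [Nat.add_sub_cancel]
    exact ⟨q * t, by ring⟩
  · rw [Nat.add_sub_cancel]
    exact ⟨(q * (q - 1) * t + 1) * t, by ring⟩

/-- **The general theorem.** -/
theorem gen : ∃ C : ℕ, ∀ q N : ℕ, 3 ≤ q → q ≤ N → Thr q N → ∀ n : ℕ, N ^ C ≤ n → Adm q n →
    ∃ 𝓕 : Finset (Finset (Finset (Fin n))), (∀ B ∈ 𝓕, IsSteiner n q B) ∧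
      (∀ B ∈ 𝓕, ∀ B' ∈ 𝓕, Iso B B' → B = B') ∧ 2 ^ (n ^ 2 / N ^ C) ≤ 𝓕.card := by
  obtain ⟨Ct, hCt, hT⟩ := td_gen
  obtain ⟨C2, hE⟩ := emb_of_thr
  obtain ⟨c, hc⟩ : ∃ c, c = 2 * (C2 + 6) := ⟨_, rfl⟩
  refine ⟨2 * c + 4 + 3 * Ct + C2 + 20, ?_⟩
  intro q N hq hqN hthr n hn hadm
  have hN : 3 ≤ N := hq.trans hqN
  obtain ⟨M, hM⟩ : ∃ M, M = q * (q - 1) := ⟨_, rfl⟩
  have hM1 : 1 ≤ M := by
    rw [hM]
    exact Nat.mul_pos (by omega) (by omega)
  have hMN : M + 1 ≤ N ^ 2 := by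
    rw [hM]
    have h1 : q * (q - 1) ≤ N * (N - 1) := Nat.mul_le_mul hqN (by omega)
    obtain ⟨x, rfl⟩ : ∃ x, N = x + 1 := ⟨N - 1, by omega⟩
    rw [Nat.add_sub_cancel] at h1
    nlinarith
  obtain ⟨K, hK⟩ : ∃ K, K = M * N + 1 := ⟨_, rfl⟩
  have hKN : N ≤ K := by rw [hK]; nlinarith
  have hK3 : K ≤ N ^ 3 := by
    rw [hK]
    have : N ^ 3 = N ^ 2 * N := by ring
    nlinarith
  have hKadm : Adm q K := by rw [hK, hM]; exact adm_mod hq
  -- the group size
  obtain ⟨P, hP⟩ : ∃ P, P = N ^ C2 := ⟨_, rfl⟩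
  have hP1 : 1 ≤ P := by rw [hP]; exact Nat.one_le_pow _ _ (by omega)
  obtain ⟨X, hX⟩ : ∃ X, X = n / (P * K) := ⟨_, rfl⟩
  obtain ⟨t, ht⟩ : ∃ t, t = (X - 1) / M := ⟨_, rfl⟩
  obtain ⟨g, hg⟩ : ∃ g, g = M * t + 1 := ⟨_, rfl⟩
  have hPK : 0 < P * K := Nat.mul_pos hP1 (by omega)
  have hPK3 : P * K ≤ N ^ (C2 + 3) := by
    rw [pow_add, ← hP]
    exact Nat.mul_le_mul_left _ hK3
  have hXbig : N ^ 3 ≤ X := by
    rw [hX, Nat.le_div_iff_mul_le hPK]
    refine le_trans ?_ hn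
    calc N ^ 3 * (P * K) ≤ N ^ 3 * N ^ (C2 + 3) := Nat.mul_le_mul_left _ hPK3
      _ = N ^ (C2 + 6) := by rw [← pow_add]; congr 1; omega
      _ ≤ _ := Nat.pow_le_pow_right (by omega) (by omega)
  have hN23 : N ^ 2 + N ^ 2 ≤ N ^ 3 := by
    have : N ^ 3 = N ^ 2 * N := by ring
    nlinarith [Nat.zero_le (N ^ 2)]
  have htM : M * t ≤ X - 1 := by
    rw [ht]
    exact Nat.mul_div_le _ _
  have hgX : g ≤ X := by omega
  have htM2 : X - 1 < M * t + M := by
    have := Nat.lt_mul_div_succ (X - 1) (show 0 < M by omega)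
    rw [← ht] at this
    nlinarith
  have hX2 : X ≤ 2 * g := by
    have h1 : M ≤ g := by
      have : M + 1 ≤ X - 1 := by omega
      have h2 : 1 ≤ t := by
        rw [ht]
        exact (Nat.one_le_div_iff (by omega)).2 (by omega)
      have h3 : M * 1 ≤ M * t := Nat.mul_le_mul_left _ h2
      omega
    omega
  have hnle : P * K * g ≤ n := by
    calc P * K * g ≤ P * K * X := Nat.mul_le_mul_left _ hgX
      _ ≤ n := by rw [hX]; exact Nat.mul_div_le _ _
  have hng : n ≤ N ^ (C2 + 6) * g := by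
    have h1 : n < P * K * (X + 1) := by
      rw [hX]
      exact Nat.lt_mul_div_succ n hPK
    have h2 : X + 1 ≤ 3 * g := by omega
    calc n ≤ P * K * (X + 1) := h1.le
      _ ≤ N ^ (C2 + 3) * (3 * g) := Nat.mul_le_mul hPK3 h2
      _ ≤ N ^ (C2 + 3) * (N ^ 3 * g) := by
          refine Nat.mul_le_mul_left _ (Nat.mul_le_mul_right _ ?_)
          calc 3 ≤ N := hN
            _ ≤ N ^ 3 := Nat.le_self_pow (by norm_num) N
      _ = _ := by rw [← mul_assoc, ← pow_add]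
  have hgT : N ^ (3 * Ct + 1) ≤ g := by
    have h1 : N ^ (C2 + 6) * N ^ (3 * Ct + 1) ≤ N ^ (C2 + 6) * g := by
      refine le_trans ?_ hng
      refine le_trans ?_ hn
      rw [← pow_add]
      exact Nat.pow_le_pow_right (by omega) (by omega)
    exact Nat.le_of_mul_le_mul_left h1 (by positivity)
  have hgN : N ≤ g := (Nat.le_self_pow (by omega) N).trans hgT
  have hOA : OA K g := by
    refine hT K (by omega) g (le_trans ?_ hgT)
    calc K ^ Ct ≤ (N ^ 3) ^ Ct := Nat.pow_le_pow_left hK3 _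
      _ = N ^ (3 * Ct) := by rw [← pow_mul]
      _ ≤ _ := Nat.pow_le_pow_right (by omega) (by omega)
  have hgadm : Adm q g := by rw [hg, hM]; exact adm_mod hq
  obtain ⟨𝓑, hB1, hB2, hB3⟩ := pbd_of_oa (by omega) hOA
  have hqK : q < K := by
    rw [hK]
    have : q ≤ M * N := by nlinarith
    omega
  have hqg : q < g := by
    have h1 : q < N ^ 2 := by nlinarith
    have h2 : N ^ 2 ≤ N ^ (3 * Ct + 1) := Nat.pow_le_pow_right (by omega) (by omega)
    omega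
  have hfill : ∀ b ∈ 𝓑, q < b.card ∧ ∃ D : Finset (Finset (Fin b.card)), IsSteiner b.card q D := by
    intro b hb
    rcases hB2 b hb with h | h
    · rw [h]
      exact ⟨hqK, steiner_of_ig (hthr K hKN hKadm)⟩
    · rw [h]
      exact ⟨hqg, steiner_of_ig (hthr g hgN hgadm)⟩
  have h1 := count_rep hq hB1 hfill
  have hm1 : 1 ≤ K * g := Nat.mul_pos (by omega) (by omega)
  have h2 : (sys (K * g) q).card ≤ (sys n q).card := by
    refine count_emb (by omega) ?_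
    intro B₀ h0
    exact hE q N hq hqN hthr (K * g) n hm1 (by rw [← hP, ← mul_assoc]; exact hnle) hadm B₀ h0
  obtain ⟨𝓕, hF1, hF2, hF3⟩ := classes n q
  refine ⟨𝓕, hF1, hF2, ?_⟩
  have h3 : 2 ^ 𝓑.card ≤ n.factorial * 𝓕.card := h1.trans (h2.trans hF3)
  have h4 : n ^ 2 ≤ N ^ c * 𝓑.card := by
    calc n ^ 2 ≤ (N ^ (C2 + 6) * g) ^ 2 := Nat.pow_le_pow_left hng 2
      _ = N ^ c * g ^ 2 := by rw [hc, mul_pow, ← pow_mul, mul_comm (C2 + 6) 2]
      _ ≤ _ := Nat.mul_le_mul_left _ hB3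
  have h5 := final_count hN (c := c) (le_trans (Nat.pow_le_pow_right (by omega) (by omega)) hn) h4 h3
  refine le_trans (Nat.pow_le_pow_right (by norm_num) ?_) h5
  exact Nat.div_le_div_left (Nat.pow_le_pow_right (by omega) (by omega)) (by positivity)

end Pool.Agent.X172.ManyS
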