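import Pool.Agent.W865.SS.PG
import Pool.Agent.H108R2.Bound3

/-! Resolvable Steiner systems `S((q-1) r + 1, q, 2)` from Steiner systems `S(r, q + 1, 2)`,
`q` a prime power. -/

set_option autoImplicit false

namespace Pool.Agent.X172.Res

open Finset

section Alg

variable {F : Type} [Field F]

/-- the codeword of `α` : the values of a linear form at the points of the projective line -/
def cw (α : F × F) : Option F → F
  | none => α.2
  | some m => α.1 + α.2 * m

lemma cw_oa {d d' : Option F} (h : d ≠ d') (s s' : F) : ∃! α, cw α d = s ∧ cw α d' = s' := by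
  have aux : ∀ (m : F) (s s' : F), ∃! α : F × F, cw α none = s ∧ cw α (some m) = s' := by
    intro m s s'
    refine ⟨(s' - s * m, s), ⟨rfl, by simp [cw]⟩, ?_⟩
    rintro ⟨a, b⟩ ⟨h1, h2⟩
    have h1' : b = s := h1
    have h2' : a + b * m = s' := h2
    subst h1'
    ext
    · simp only
      linear_combination h2'
    · rfl
  rcases d with _ | m
  · rcases d' with _ | m'
    · exact absurd rfl h
    · exact aux m' s s'
  · rcases d' with _ | m'
    · obtain ⟨α, ⟨h1, h2⟩, h3⟩ := aux m s' s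
      exact ⟨α, ⟨h2, h1⟩, fun β hβ => h3 β ⟨hβ.2, hβ.1⟩⟩
    · have hne : m - m' ≠ 0 := sub_ne_zero.2 (fun h' => h (by rw [h']))
      refine ⟨(s - (s - s') / (m - m') * m, (s - s') / (m - m')), ⟨?_, ?_⟩, ?_⟩
      · simp [cw]
      · simp only [cw]
        field_simp
        ring
      · rintro ⟨a, b⟩ ⟨h1, h2⟩
        have h1' : a + b * m = s := h1
        have h2' : a + b * m' = s' := h2
        have h3 : b = (s - s') / (m - m') := by
          rw [eq_div_iff hne, ← h1', ← h2']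
          ring
        ext
        · simp only
          rw [← h3, ← h1']
          ring
        · exact h3

lemma cw_zero (d : Option F) : cw (0 : F × F) d = 0 := by
  cases d <;> simp [cw]

lemma cw_exists_zero {α : F × F} (h : α ≠ 0) : ∃ d, cw α d = 0 := by
  by_cases hb : α.2 = 0
  · exact ⟨none, hb⟩
  · refine ⟨some (-α.1 / α.2), ?_⟩
    simp only [cw]
    field_simp
    ring

lemma cw_unique_zero {α : F × F} (h : α ≠ 0) {d d' : Option F} (h1 : cw α d = 0) (h2 : cw α d' = 0) :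
    d = d' := by
  by_contra hne
  obtain ⟨β, -, h3⟩ := cw_oa hne (0 : F) 0
  exact h ((h3 α ⟨h1, h2⟩).trans (h3 0 ⟨cw_zero _, cw_zero _⟩).symm)

end Alg

/-- `B` is a Steiner system with block size `q` on the set `V` -/
def IsSt (V : Type) (q : ℕ) (B : Finset (Finset V)) : Prop :=
  (∀ b ∈ B, b.card = q) ∧ ∀ x y : V, x ≠ y → ∃! b, b ∈ B ∧ x ∈ b ∧ y ∈ b

/-- `B` is resolvable -/
def IsRes (V : Type) (B : Finset (Finset V)) : Prop :=
  ∃ 𝓟 : Finset (Finset (Finset V)), (∀ P ∈ 𝓟, P ⊆ B ∧ ∀ x, ∃! b, b ∈ P ∧ x ∈ b) ∧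
    ∀ b ∈ B, ∃! P, P ∈ 𝓟 ∧ b ∈ P

section Build

variable {F : Type} [Field F] [Fintype F] {r : ℕ}

/-- the points -/
abbrev Pt (F : Type) [Field F] (r : ℕ) : Type := Option (Fin r × Fˣ)

open scoped Classical in
/-- the vertical blocks -/
noncomputable def vert (F : Type) [Field F] [Fintype F] {r : ℕ} (x : Fin r) : Finset (Pt F r) :=
  univ.filter fun p => p = none ∨ ∃ t, p = some (x, t)

open scoped Classical in
/-- the horizontal blocks -/
noncomputable def horiz (E : Finset (Fin r) → Fin r → Option F) (A : Finset (Fin r)) (α : F × F) :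
    Finset (Pt F r) :=
  univ.filter fun p => ∃ y ∈ A, ∃ t : Fˣ, p = some (y, t) ∧ cw α (E A y) = t

lemma none_vert (x : Fin r) : none ∈ vert F x := by
  classical
  unfold vert
  rw [mem_filter]
  exact ⟨mem_univ _, Or.inl rfl⟩

lemma some_vert (x y : Fin r) (t : Fˣ) : some (y, t) ∈ vert F x ↔ y = x := by
  classical
  unfold vert
  rw [mem_filter]
  constructor
  · rintro ⟨-, h | ⟨s, hs⟩⟩
    · exact absurd h (by simp)
    · have := Option.some.inj hs
      exact (Prod.ext_iff.1 this).1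
  · rintro rfl
    exact ⟨mem_univ _, Or.inr ⟨t, rfl⟩⟩

variable (E : Finset (Fin r) → Fin r → Option F)

lemma none_horiz (A : Finset (Fin r)) (α : F × F) : none ∉ horiz E A α := by
  classical
  unfold horiz
  rw [mem_filter]
  rintro ⟨-, y, -, t, h, -⟩
  exact absurd h (by simp)

lemma some_horiz (A : Finset (Fin r)) (α : F × F) (y : Fin r) (t : Fˣ) :
    some (y, t) ∈ horiz E A α ↔ y ∈ A ∧ cw α (E A y) = t := by
  classical
  unfold horiz
  rw [mem_filter]
  constructor
  · rintro ⟨-, y', hy', t', h, h2⟩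
    have h3 := Prod.ext_iff.1 (Option.some.inj h)
    obtain ⟨h4, h5⟩ := h3
    simp only at h4 h5
    subst h4
    subst h5
    exact ⟨hy', h2⟩
  · rintro ⟨h1, h2⟩
    exact ⟨mem_univ _, y, h1, t, rfl, h2⟩

lemma card_vert (x : Fin r) : (vert F x).card = Fintype.card F := by
  classical
  have h1 : vert F x = insert none (univ.image fun t : Fˣ => (some (x, t) : Pt F r)) := by
    ext p
    rcases p with _ | ⟨y, t⟩
    · simp [none_vert]
    · rw [some_vert, mem_insert, mem_image]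
      constructor
      · rintro rfl
        exact Or.inr ⟨t, mem_univ _, rfl⟩
      · rintro (h | ⟨s, -, hs⟩)
        · exact absurd h (by simp)
        · exact ((Prod.ext_iff.1 (Option.some.inj hs)).1).symm
  rw [h1, card_insert_of_notMem (by simp), card_image_of_injective, card_univ, Fintype.card_units]
  · have := Fintype.card_pos (α := F)
    omega
  · intro s t h
    exact (Prod.ext_iff.1 (Option.some.inj h)).2

variable {q : ℕ} (hF : Fintype.card F = q) {𝓐 : Finset (Finset (Fin r))}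
  (hA : ∀ A ∈ 𝓐, A.card = q + 1)
  (hA2 : ∀ x y : Fin r, x ≠ y → ∃! A, A ∈ 𝓐 ∧ x ∈ A ∧ y ∈ A)
  (hE1 : ∀ A ∈ 𝓐, ∀ x ∈ A, ∀ y ∈ A, E A x = E A y → x = y)
  (hE2 : ∀ A ∈ 𝓐, ∀ d, ∃ x ∈ A, E A x = d)

include hA hE1 hE2 in
lemma card_horiz {A : Finset (Fin r)} (hAA : A ∈ 𝓐) {α : F × F} (hα : α ≠ 0) :
    (horiz E A α).card = q := by
  classical
  obtain ⟨d, hd⟩ := cw_exists_zero hα
  obtain ⟨x, hx, hxd⟩ := hE2 A hAA d
  have h1 : (A.erase x).card = q := by rw [card_erase_of_mem hx, hA A hAA]; rfl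
  rw [← h1]
  have hne : ∀ y ∈ A.erase x, cw α (E A y) ≠ 0 := by
    intro y hy h
    rw [mem_erase] at hy
    have h2 := cw_unique_zero hα h hd
    rw [← hxd] at h2
    exact hy.1 (hE1 A hAA y hy.2 x hx h2)
  symm
  refine Finset.card_bij (fun y hy => (some (y, Units.mk0 _ (hne y hy)) : Pt F r)) ?_ ?_ ?_
  · intro y hy
    rw [some_horiz]
    exact ⟨(mem_erase.1 hy).2, rfl⟩
  · intro y hy z hz h
    exact (Prod.ext_iff.1 (Option.some.inj h)).1
  · intro p hp
    rcases p with _ | ⟨y, t⟩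
    · exact absurd hp (none_horiz E A α)
    · rw [some_horiz] at hp
      have hyx : y ≠ x := by
        rintro rfl
        rw [hxd, hd] at hp
        exact t.ne_zero hp.2.symm
      refine ⟨y, mem_erase.2 ⟨hyx, hp.1⟩, ?_⟩
      congr 2
      ext
      exact hp.2

open scoped Classical in
/-- the blocks -/
noncomputable def blocks (E : Finset (Fin r) → Fin r → Option F) (𝓐 : Finset (Finset (Fin r))) :
    Finset (Finset (Pt F r)) :=
  univ.filter fun b => (∃ x, b = vert F x) ∨ ∃ A ∈ 𝓐, ∃ α : F × F, α ≠ 0 ∧ b = horiz E A α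

open scoped Classical in
/-- the parallel classes -/
noncomputable def cls (E : Finset (Fin r) → Fin r → Option F) (𝓐 : Finset (Finset (Fin r)))
    (x : Fin r) : Finset (Finset (Pt F r)) :=
  univ.filter fun b => b = vert F x ∨ ∃ A ∈ 𝓐, x ∈ A ∧ ∃ α : F × F, α ≠ 0 ∧ cw α (E A x) = 0 ∧
    b = horiz E A α

lemma mem_blocks {b : Finset (Pt F r)} : b ∈ blocks E 𝓐 ↔
    (∃ x, b = vert F x) ∨ ∃ A ∈ 𝓐, ∃ α : F × F, α ≠ 0 ∧ b = horiz E A α := by
  classical
  unfold blocks
  rw [mem_filter]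
  exact ⟨fun h => h.2, fun h => ⟨mem_univ _, h⟩⟩

lemma mem_cls {x : Fin r} {b : Finset (Pt F r)} : b ∈ cls E 𝓐 x ↔
    b = vert F x ∨ ∃ A ∈ 𝓐, x ∈ A ∧ ∃ α : F × F, α ≠ 0 ∧ cw α (E A x) = 0 ∧ b = horiz E A α := by
  classical
  unfold cls
  rw [mem_filter]
  exact ⟨fun h => h.2, fun h => ⟨mem_univ _, h⟩⟩

include hF hA hA2 hE1 hE2 in
theorem blocks_st : IsSt (Pt F r) q (blocks E 𝓐) := by
  classical
  constructor
  · intro b hb
    rcases (mem_blocks E).1 hb with ⟨x, rfl⟩ | ⟨A, hAA, α, hα, rfl⟩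
    · rw [card_vert, hF]
    · exact card_horiz E hA hE1 hE2 hAA hα
  · have key : ∀ (x : Fin r) (t : Fˣ), ∃! b, b ∈ blocks E 𝓐 ∧ (none : Pt F r) ∈ b ∧
        (some (x, t) : Pt F r) ∈ b := by
      intro x t
      refine ⟨vert F x, ⟨(mem_blocks E).2 (Or.inl ⟨x, rfl⟩), none_vert x,
        (some_vert x x t).2 rfl⟩, ?_⟩
      rintro b ⟨hb, h1, h2⟩
      rcases (mem_blocks E).1 hb with ⟨y, rfl⟩ | ⟨A, hAA, α, hα, rfl⟩
      · rw [(some_vert y x t).1 h2]
      · exact absurd h1 (none_horiz E A α)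
    intro p p' hpp
    rcases p with _ | ⟨x, t⟩
    · rcases p' with _ | ⟨y, s⟩
      · exact absurd rfl hpp
      · exact key y s
    · rcases p' with _ | ⟨y, s⟩
      · obtain ⟨b, ⟨h1, h2, h3⟩, h4⟩ := key x t
        exact ⟨b, ⟨h1, h3, h2⟩, fun c hc => h4 c ⟨hc.1, hc.2.2, hc.2.1⟩⟩
      · by_cases hxy : x = y
        · subst hxy
          refine ⟨vert F x, ⟨(mem_blocks E).2 (Or.inl ⟨x, rfl⟩), (some_vert x x t).2 rfl,
            (some_vert x x s).2 rfl⟩, ?_⟩
          rintro b ⟨hb, h1, h2⟩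
          rcases (mem_blocks E).1 hb with ⟨y, rfl⟩ | ⟨A, hAA, α, hα, rfl⟩
          · rw [(some_vert y x t).1 h1]
          · rw [some_horiz] at h1 h2
            exfalso
            apply hpp
            have : t = s := Units.ext (h1.2.symm.trans h2.2)
            rw [this]
        · obtain ⟨A, ⟨hAA, hxA, hyA⟩, hAu⟩ := hA2 x y hxy
          have hne : E A x ≠ E A y := fun h => hxy (hE1 A hAA x hxA y hyA h)
          obtain ⟨α, ⟨h1, h2⟩, hαu⟩ := cw_oa hne (t : F) (s : F)
          have hα : α ≠ 0 := by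
            rintro rfl
            rw [cw_zero] at h1
            exact t.ne_zero h1.symm
          refine ⟨horiz E A α, ⟨(mem_blocks E).2 (Or.inr ⟨A, hAA, α, hα, rfl⟩),
            (some_horiz E A α x t).2 ⟨hxA, h1⟩, (some_horiz E A α y s).2 ⟨hyA, h2⟩⟩, ?_⟩
          rintro b ⟨hb, g1, g2⟩
          rcases (mem_blocks E).1 hb with ⟨z, rfl⟩ | ⟨A', hAA', α', hα', rfl⟩
          · exact absurd (((some_vert z x t).1 g1).trans ((some_vert z y s).1 g2).symm) hxy
          · rw [some_horiz] at g1 g2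
            have h3 : A' = A := hAu A' ⟨hAA', g1.1, g2.1⟩
            subst h3
            rw [hαu α' ⟨g1.2, g2.2⟩]

include hA hA2 hE1 hE2 in
theorem blocks_res (hq : 2 ≤ q) : IsRes (Pt F r) (blocks E 𝓐) := by
  classical
  refine ⟨univ.image (cls E 𝓐), ?_, ?_⟩
  · intro P hP
    obtain ⟨x, -, rfl⟩ := mem_image.1 hP
    constructor
    · intro b hb
      rcases (mem_cls E).1 hb with rfl | ⟨A, hAA, -, α, hα, -, rfl⟩
      · exact (mem_blocks E).2 (Or.inl ⟨x, rfl⟩)
      · exact (mem_blocks E).2 (Or.inr ⟨A, hAA, α, hα, rfl⟩)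
    · intro p
      rcases p with _ | ⟨y, t⟩
      · refine ⟨vert F x, ⟨(mem_cls E).2 (Or.inl rfl), none_vert x⟩, ?_⟩
        rintro b ⟨hb, h1⟩
        rcases (mem_cls E).1 hb with rfl | ⟨A, hAA, -, α, hα, -, rfl⟩
        · rfl
        · exact absurd h1 (none_horiz E A α)
      · by_cases hyx : y = x
        · subst hyx
          refine ⟨vert F y, ⟨(mem_cls E).2 (Or.inl rfl), (some_vert y y t).2 rfl⟩, ?_⟩
          rintro b ⟨hb, h1⟩
          rcases (mem_cls E).1 hb with rfl | ⟨A, hAA, -, α, hα, h0, rfl⟩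
          · rfl
          · rw [some_horiz, h0] at h1
            exact absurd h1.2.symm t.ne_zero
        · obtain ⟨A, ⟨hAA, hxA, hyA⟩, hAu⟩ := hA2 x y (Ne.symm hyx)
          have hne : E A x ≠ E A y := fun h => hyx (hE1 A hAA x hxA y hyA h).symm
          obtain ⟨α, ⟨h1, h2⟩, hαu⟩ := cw_oa hne (0 : F) (t : F)
          have hα : α ≠ 0 := by
            rintro rfl
            rw [cw_zero] at h2
            exact t.ne_zero h2.symm
          refine ⟨horiz E A α, ⟨(mem_cls E).2 (Or.inr ⟨A, hAA, hxA, α, hα, h1, rfl⟩),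
            (some_horiz E A α y t).2 ⟨hyA, h2⟩⟩, ?_⟩
          rintro b ⟨hb, g2⟩
          rcases (mem_cls E).1 hb with rfl | ⟨A', hAA', hxA', α', hα', g1, rfl⟩
          · exact absurd ((some_vert x y t).1 g2) hyx
          · rw [some_horiz] at g2
            have h3 : A' = A := hAu A' ⟨hAA', hxA', g2.1⟩
            subst h3
            rw [hαu α' ⟨g1, g2.2⟩]
  · -- every block is in one class
    have key : ∀ b ∈ blocks E 𝓐, ∃! x, b ∈ cls E 𝓐 x := by
      intro b hb
      rcases (mem_blocks E).1 hb with ⟨x, rfl⟩ | ⟨A, hAA, α, hα, rfl⟩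
      · refine ⟨x, (mem_cls E).2 (Or.inl rfl), ?_⟩
        intro y hy
        rcases (mem_cls E).1 hy with h | ⟨A, hAA, -, α, hα, -, h⟩
        · have h1 := (some_vert x x (1 : Fˣ)).2 rfl
          rw [h] at h1
          exact ((some_vert y x 1).1 h1).symm
        · have h1 := none_vert (F := F) x
          rw [h] at h1
          exact absurd h1 (none_horiz E A α)
      · obtain ⟨d, hd⟩ := cw_exists_zero hα
        obtain ⟨x, hx, hxd⟩ := hE2 A hAA d
        have hx0 : cw α (E A x) = 0 := by rw [hxd]; exact hd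
        refine ⟨x, (mem_cls E).2 (Or.inr ⟨A, hAA, hx, α, hα, hx0, rfl⟩), ?_⟩
        intro y hy
        rcases (mem_cls E).1 hy with h | ⟨A', hAA', hyA', α', hα', g0, h⟩
        · have h1 := none_vert (F := F) y
          rw [← h] at h1
          exact absurd h1 (none_horiz E A α)
        · -- two common points
          have hsub : ∀ z ∈ A.erase x, ∃ t : Fˣ, (some (z, t) : Pt F r) ∈ horiz E A α := by
            intro z hz
            rw [mem_erase] at hz
            have hzne : cw α (E A z) ≠ 0 := by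
              intro h0
              have h2 := cw_unique_zero hα h0 hx0
              exact hz.1 (hE1 A hAA z hz.2 x hx h2)
            exact ⟨Units.mk0 _ hzne, (some_horiz E A α z _).2 ⟨hz.2, rfl⟩⟩
          have hsub2 : ∀ z ∈ A.erase x, z ∈ A' ∧ z ≠ y := by
            intro z hz
            obtain ⟨t, ht⟩ := hsub z hz
            rw [h, some_horiz] at ht
            refine ⟨ht.1, ?_⟩
            rintro rfl
            rw [g0] at ht
            exact t.ne_zero ht.2.symm
          have hc : 1 < (A.erase x).card := by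
            rw [card_erase_of_mem hx, hA A hAA]
            omega
          obtain ⟨z, hz, w, hw, hzw⟩ := one_lt_card.1 hc
          have hAA2 : A' = A := by
            obtain ⟨A0, -, hu⟩ := hA2 z w hzw
            rw [hu A' ⟨hAA', (hsub2 z hz).1, (hsub2 w hw).1⟩,
              hu A ⟨hAA, (mem_erase.1 hz).2, (mem_erase.1 hw).2⟩]
          subst hAA2
          by_contra hne
          exact (hsub2 y (mem_erase.2 ⟨hne, hyA'⟩)).2 rfl
    intro b hb
    obtain ⟨x, hx, hu⟩ := key b hb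
    refine ⟨cls E 𝓐 x, ⟨mem_image_of_mem _ (mem_univ _), hx⟩, ?_⟩
    rintro P ⟨hP, hbP⟩
    obtain ⟨y, -, rfl⟩ := mem_image.1 hP
    rw [hu y hbP]

end Build

/-- transport along a bijection -/
theorem transport {V W : Type} [DecidableEq V] [DecidableEq W] (e : V ≃ W) {q : ℕ}
    {B : Finset (Finset V)} (h1 : IsSt V q B) (h2 : IsRes V B) :
    ∃ B' : Finset (Finset W), IsSt W q B' ∧ IsRes W B' := by
  classical
  let m : Finset V → Finset W := fun b => b.map e.toEmbedding
  have hm : Function.Injective m := Finset.map_injective _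
  have mm : ∀ (x : W) (b : Finset V), x ∈ m b ↔ e.symm x ∈ b := by
    intro x b
    simp only [m, mem_map_equiv]
  refine ⟨B.image m, ⟨?_, ?_⟩, ?_⟩
  · intro b hb
    obtain ⟨c, hc, rfl⟩ := mem_image.1 hb
    simp only [m, card_map]
    exact h1.1 c hc
  · intro x y hxy
    obtain ⟨b, ⟨hb, hx, hy⟩, hu⟩ := h1.2 (e.symm x) (e.symm y) (fun h => hxy (e.symm.injective h))
    refine ⟨m b, ⟨mem_image_of_mem _ hb, (mm _ _).2 hx, (mm _ _).2 hy⟩, ?_⟩
    rintro c ⟨hc, hx', hy'⟩
    obtain ⟨c, hcB, rfl⟩ := mem_image.1 hc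
    rw [hu c ⟨hcB, (mm _ _).1 hx', (mm _ _).1 hy'⟩]
  · obtain ⟨𝓟, hP1, hP2⟩ := h2
    have him : Function.Injective (Finset.image m) := Finset.image_injective hm
    refine ⟨𝓟.image (Finset.image m), ?_, ?_⟩
    · intro P hP
      obtain ⟨P, hPP, rfl⟩ := mem_image.1 hP
      obtain ⟨g1, g2⟩ := hP1 P hPP
      refine ⟨image_subset_image g1, ?_⟩
      intro x
      obtain ⟨b, ⟨hb, hx⟩, hu⟩ := g2 (e.symm x)
      refine ⟨m b, ⟨mem_image_of_mem _ hb, (mm _ _).2 hx⟩, ?_⟩
      rintro c ⟨hc, hx'⟩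
      obtain ⟨c, hcP, rfl⟩ := mem_image.1 hc
      rw [hu c ⟨hcP, (mm _ _).1 hx'⟩]
    · intro b hb
      obtain ⟨b, hbB, rfl⟩ := mem_image.1 hb
      obtain ⟨P, ⟨hP, hbP⟩, hu⟩ := hP2 b hbB
      refine ⟨P.image m, ⟨mem_image_of_mem _ hP, mem_image_of_mem _ hbP⟩, ?_⟩
      rintro Q ⟨hQ, hbQ⟩
      obtain ⟨Q, hQP, rfl⟩ := mem_image.1 hQ
      obtain ⟨b', hb', he⟩ := mem_image.1 hbQ
      rw [hm he] at hb'
      rw [hu Q ⟨hQP, hb'⟩]

/-- resolvable systems from systems with blocks of size `q + 1` -/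
theorem res_of {q r : ℕ} (hq : IsPrimePow q) {𝓐 : Finset (Finset (Fin r))}
    (h1 : ∀ A ∈ 𝓐, A.card = q + 1)
    (h2 : ∀ T : Finset (Fin r), T.card = 2 → ∃! A, A ∈ 𝓐 ∧ T ⊆ A) {n : ℕ}
    (hn : n = (q - 1) * r + 1) :
    ∃ B : Finset (Finset (Fin n)), IsSt (Fin n) q B ∧ IsRes (Fin n) B := by
  classical
  obtain ⟨p, k, hp, hk, rfl⟩ := hq
  have hp' : p.Prime := hp.nat_prime
  haveI : Fact p.Prime := ⟨hp'⟩
  let F := GaloisField p k
  haveI : Fintype F := Fintype.ofFinite F
  have hF : Fintype.card F = p ^ k := by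
    rw [← Nat.card_eq_fintype_card]
    exact GaloisField.card p k (by omega)
  have hq2 : 2 ≤ p ^ k := by
    calc 2 ≤ p := hp'.two_le
      _ ≤ p ^ k := Nat.le_self_pow (by omega) p
  have hA2 : ∀ x y : Fin r, x ≠ y → ∃! A, A ∈ 𝓐 ∧ x ∈ A ∧ y ∈ A := by
    intro x y hxy
    obtain ⟨A, ⟨hA, hs⟩, hu⟩ := h2 {x, y} (card_pair hxy)
    rw [insert_subset_iff, singleton_subset_iff] at hs
    refine ⟨A, ⟨hA, hs⟩, ?_⟩
    rintro A' ⟨hA', hx, hy⟩
    exact hu A' ⟨hA', by rw [insert_subset_iff, singleton_subset_iff]; exact ⟨hx, hy⟩⟩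
  -- the numbering of the blocks
  have hE : ∀ A : Finset (Fin r), ∃ e : Fin r → Option F, A ∈ 𝓐 →
      (∀ x ∈ A, ∀ y ∈ A, e x = e y → x = y) ∧ ∀ d, ∃ x ∈ A, e x = d := by
    intro A
    by_cases hA : A ∈ 𝓐
    · have hc : Fintype.card {x // x ∈ A} = Fintype.card (Option F) := by
        rw [Fintype.card_coe, h1 A hA, Fintype.card_option, hF]
      let e0 : {x // x ∈ A} ≃ Option F := Fintype.equivOfCardEq hc
      refine ⟨fun x => if h : x ∈ A then e0 ⟨x, h⟩ else none, fun _ => ⟨?_, ?_⟩⟩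
      · intro x hx y hy h
        beta_reduce at h
        rw [dif_pos hx, dif_pos hy] at h
        have := e0.injective h
        exact congrArg Subtype.val this
      · intro d
        refine ⟨(e0.symm d).1, (e0.symm d).2, ?_⟩
        beta_reduce
        rw [dif_pos (e0.symm d).2]
        exact e0.apply_symm_apply d
    · exact ⟨fun _ => none, fun h => absurd h hA⟩
  choose E hE using hE
  have g1 := blocks_st E hF h1 hA2 (fun A hA => (hE A hA).1) (fun A hA => (hE A hA).2)
  have g2 := blocks_res E h1 hA2 (fun A hA => (hE A hA).1) (fun A hA => (hE A hA).2) hq2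
  have hcard : Fintype.card (Pt F r) = n := by
    rw [Fintype.card_option, Fintype.card_prod, Fintype.card_fin, Fintype.card_units, hF, hn,
      mul_comm]
  exact transport (Fintype.equivFinOfCardEq hcard) g1 g2

end Pool.Agent.X172.Res
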