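import Pool.Agent.X172.ManyS.Hyp
import Pool.Agent.W865.SS.PG
import Pool.Agent.W855.TDgen

/-! Frames of all large sizes for `q` a power of two. -/

set_option autoImplicit false

namespace Pool.Agent.X172.TP

open Finset H108 Pool.Agent.W855 Pool.Agent.X172.Res Pool.Agent.X172.Fr

/-- there is a frame with `k` groups of size `q - 1` -/
def FR (q k : ℕ) : Prop := AF q (Prod.fst : Fin k × Fin (q - 1) → Fin k)

/-- the number of parallel classes -/
theorem card_classes {V : Type} [Fintype V] [DecidableEq V] {q : ℕ}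
    {B : Finset (Finset V)} (h1 : IsSt V q B) {𝓟 : Finset (Finset (Finset V))}
    (hP1 : ∀ P ∈ 𝓟, P ⊆ B ∧ ∀ x, ∃! b, b ∈ P ∧ x ∈ b) (hP2 : ∀ b ∈ B, ∃! P, P ∈ 𝓟 ∧ b ∈ P)
    (v0 : V) : (q - 1) * 𝓟.card + 1 = Fintype.card V := by
  classical
  -- the block of a class through v0
  have hb : ∀ P, ∃ b, P ∈ 𝓟 → (b ∈ P ∧ v0 ∈ b) ∧ ∀ c, c ∈ P ∧ v0 ∈ c → c = b := by
    intro P
    by_cases hP : P ∈ 𝓟
    · obtain ⟨b, h2, h3⟩ := (hP1 P hP).2 v0
      exact ⟨b, fun _ => ⟨h2, h3⟩⟩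
    · exact ⟨∅, fun h => absurd h hP⟩
  choose bl hbl using hb
  have h2 : (univ : Finset V).erase v0 = 𝓟.biUnion fun P => (bl P).erase v0 := by
    ext v
    rw [mem_erase, mem_biUnion]
    constructor
    · rintro ⟨hv, -⟩
      obtain ⟨b, ⟨hbB, hv0, hvb⟩, -⟩ := h1.2 v0 v (Ne.symm hv)
      obtain ⟨P, ⟨hP, hbP⟩, -⟩ := hP2 b hbB
      refine ⟨P, hP, mem_erase.2 ⟨hv, ?_⟩⟩
      rw [← (hbl P hP).2 b ⟨hbP, hv0⟩]
      exact hvb
    · rintro ⟨P, hP, hv⟩
      exact ⟨(mem_erase.1 hv).1, mem_univ _⟩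
  have h3 : ((univ : Finset V).erase v0).card = ∑ P ∈ 𝓟, ((bl P).erase v0).card := by
    rw [h2]
    refine card_biUnion ?_
    intro P hP Q hQ hPQ
    change Disjoint ((bl P).erase v0) ((bl Q).erase v0)
    rw [disjoint_left]
    intro v hvP hvQ
    rw [mem_erase] at hvP hvQ
    apply hPQ
    have k1 := (hbl P hP).1
    have k2 := (hbl Q hQ).1
    have k3 := (hP1 P hP).1 k1.1
    have k4 := (hP1 Q hQ).1 k2.1
    obtain ⟨b, -, hu⟩ := h1.2 v0 v (Ne.symm hvP.1)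
    have k5 : bl P = bl Q := (hu _ ⟨k3, k1.2, hvP.2⟩).trans (hu _ ⟨k4, k2.2, hvQ.2⟩).symm
    obtain ⟨R, -, hR⟩ := hP2 _ k3
    exact (hR P ⟨hP, k1.1⟩).trans (hR Q ⟨hQ, by rw [k5]; exact k2.1⟩).symm
  rw [sum_congr rfl (fun P hP => by
    rw [card_erase_of_mem (hbl P hP).1.2, h1.1 _ ((hP1 P hP).1 (hbl P hP).1.1)]), sum_const,
    card_erase_of_mem (mem_univ _), card_univ, smul_eq_mul] at h3
  have h4 : 0 < Fintype.card V := Fintype.card_pos_iff.2 ⟨v0⟩
  rw [mul_comm, ← h3]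
  omega

/-- the affine plane -/
theorem fr_plane {q : ℕ} (hq : IsPrimePow q) : FR q (q + 1) := by
  classical
  have hq2 : 2 ≤ q := hq.two_le
  obtain ⟨B, hB, 𝓟, hP1, hP2⟩ := res_of (r := q + 1) hq (𝓐 := {univ})
    (by
      intro A hA
      rw [mem_singleton.1 hA]
      simp)
    (by
      intro T hT
      refine ⟨univ, ⟨mem_singleton_self _, subset_univ _⟩, ?_⟩
      rintro A ⟨hA, -⟩
      exact mem_singleton.1 hA) (n := (q - 1) * (q + 1) + 1) rfl
  have v0 : Fin ((q - 1) * (q + 1) + 1) := ⟨0, by omega⟩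
  have h1 := card_classes hB hP1 hP2 v0
  rw [Fintype.card_fin] at h1
  have h2 : 𝓟.card = q + 1 := by
    have h3 : (q - 1) * 𝓟.card = (q - 1) * (q + 1) := by omega
    exact Nat.eq_of_mul_eq_mul_left (by omega) h3
  exact AF_of_res hq2 hB hP1 hP2 v0 h2

/-- the hyperoval -/
theorem fr_hyp {s : ℕ} (hs : 1 ≤ s) : FR (2 ^ s) (2 * 2 ^ s + 1) := by
  haveI : Fact (Nat.Prime 2) := ⟨Nat.prime_two⟩
  let F := GaloisField 2 (s + 1)
  haveI : Fintype F := Fintype.ofFinite F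
  haveI : CharP F 2 := inferInstance
  have hF : Fintype.card F = 2 * 2 ^ s := by
    rw [← Nat.card_eq_fintype_card]
    rw [GaloisField.card 2 (s + 1) (by omega), pow_succ, mul_comm]
  exact Pool.Agent.X172.Hyp.frame_hyp (F := F)
    (by calc 2 = 2 ^ 1 := by norm_num
          _ ≤ 2 ^ s := Nat.pow_le_pow_right (by norm_num) hs) hF

theorem fr_closure {q k r : ℕ} (hq : 2 ≤ q) (h : IG {k} 1 r 0) (hk : FR q k) : FR q r := by
  have h1 : GD {k} (id : Fin r → Fin r) := (ig_id_iff k r (by simp)).2 h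
  exact AF_closure hq h1 (by rintro u rfl; exact hk)

/-- adding a point to all groups -/
theorem gd_add {X P : Type} [Finite X] {K K' : Set ℕ} {π : X → P} (h : GD K π) (hK : K ⊆ K')
    (hf : ∀ x : X, Nat.card {y // π y = π x} + 1 ∈ K') : GD K' (id : Option X → Option X) := by
  classical
  haveI : Fintype X := Fintype.ofFinite X
  obtain ⟨B, hB, hU⟩ := h
  let em : X ↪ Option X := Function.Embedding.some
  have hem : ∀ (s : Finset X) (p : X), (some p : Option X) ∈ s.map em ↔ p ∈ s := by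
    intro s p
    rw [mem_map]
    constructor
    · rintro ⟨w, hw, he⟩
      rwa [← Option.some.inj he]
    · intro hv
      exact ⟨p, hv, rfl⟩
  have hem0 : ∀ s : Finset X, (none : Option X) ∉ s.map em := by
    intro s h
    obtain ⟨w, -, he⟩ := mem_map.1 h
    exact absurd he (by simp [em])
  let gr : X → Finset (Option X) := fun x =>
    insert none ((univ.filter fun y => π y = π x).map em)
  have g0 : ∀ x, (none : Option X) ∈ gr x := fun x => mem_insert_self _ _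
  have g1 : ∀ x y, (some y : Option X) ∈ gr x ↔ π y = π x := by
    intro x y
    simp only [gr]
    rw [mem_insert, hem, mem_filter]
    simp
  have g2 : ∀ x y, π x = π y → gr x = gr y := by
    intro x y h
    simp only [gr, h]
  refine ⟨{b | (∃ c ∈ B, b = c.map em) ∨ ∃ x, b = gr x}, ?_, ?_⟩
  · rintro b (⟨c, hc, rfl⟩ | ⟨x, rfl⟩)
    · rw [card_map]
      exact ⟨hK (hB c hc).1, Function.injective_id.injOn⟩
    · refine ⟨?_, Function.injective_id.injOn⟩
      simp only [gr]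
      rw [card_insert_of_notMem (hem0 _), card_map]
      have h1 := hf x
      rw [Nat.card_eq_fintype_card, Fintype.card_subtype] at h1
      exact h1
  · have key : ∀ x : X, ∃! b, b ∈ {b | (∃ c ∈ B, b = c.map em) ∨ ∃ x, b = gr x} ∧
        (none : Option X) ∈ b ∧ some x ∈ b := by
      intro x
      refine ⟨gr x, ⟨Or.inr ⟨x, rfl⟩, g0 x, (g1 _ _).2 rfl⟩, ?_⟩
      rintro b ⟨⟨c, hc, rfl⟩ | ⟨y, rfl⟩, k1, k2⟩
      · exact absurd k1 (hem0 _)
      · exact (g2 _ _ ((g1 _ _).1 k2)).symm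
    intro p p' hpp
    rcases p with _ | x
    · rcases p' with _ | y
      · exact absurd rfl hpp
      · exact key y
    · rcases p' with _ | y
      · obtain ⟨b, ⟨k1, k2, k3⟩, k4⟩ := key x
        exact ⟨b, ⟨k1, k3, k2⟩, fun c hc => k4 c ⟨hc.1, hc.2.2, hc.2.1⟩⟩
      · have hxy : x ≠ y := fun h => hpp (by rw [h])
        by_cases h : π x = π y
        · refine ⟨gr x, ⟨Or.inr ⟨x, rfl⟩, (g1 _ _).2 rfl, (g1 _ _).2 h.symm⟩, ?_⟩
          rintro b ⟨⟨c, hc, rfl⟩ | ⟨z, rfl⟩, k1, k2⟩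
          · exact absurd ((hB c hc).2 (mem_coe.2 ((hem _ _).1 k1)) (mem_coe.2 ((hem _ _).1 k2)) h) hxy
          · exact (g2 _ _ ((g1 _ _).1 k1)).symm
        · obtain ⟨c, ⟨hc, k1, k2⟩, hu⟩ := hU x y h
          refine ⟨c.map em, ⟨Or.inl ⟨c, hc, rfl⟩, (hem _ _).2 k1, (hem _ _).2 k2⟩, ?_⟩
          rintro b ⟨⟨c', hc', rfl⟩ | ⟨z, rfl⟩, l1, l2⟩
          · rw [hu c' ⟨hc', (hem _ _).1 l1, (hem _ _).1 l2⟩]
          · exact absurd (((g1 _ _).1 l1).trans ((g1 _ _).1 l2).symm) h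

/-- the truncated transversal design with weights `q` -/
theorem fr_trunc {q N T S : ℕ} (hq : 2 ≤ q) (hO : OA (N + 1) T) (hST : S ≤ T)
    (hN : IG {q + 1} q N 0) (hN1 : IG {q + 1} q (N + 1) 0) (h0 : FR q (q + 1))
    (hT : FR q (q * T + 1)) (hS : FR q (q * S + 1)) : FR q (q * (N * T + S) + 1) := by
  classical
  obtain ⟨W, hW⟩ := hO
  let keep : Fin (N + 1) → Fin T → Prop := fun i v => i.val < N ∨ v.val < S
  have h1 : GD {N, N + 1} (fun p : {p : Fin (N + 1) × Fin T // keep p.1 p.2} => p.1.1) :=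
    gd_of_oa hW keep {N, N + 1} (fun w _ s hs => trunc_block w s hs)
  have h2 := GD_wfc (K' := {q + 1}) q h1 (by
    rintro u (rfl | rfl)
    · exact hN
    · exact hN1)
  have hfib : ∀ i : Fin (N + 1), Nat.card {y : {p : Fin (N + 1) × Fin T // keep p.1 p.2} × Fin q //
      y.1.1.1 = i} = (if i.val < N then T else S) * q := by
    intro i
    have e : {y : {p : Fin (N + 1) × Fin T // keep p.1 p.2} × Fin q // y.1.1.1 = i} ≃
        {y : {p : Fin (N + 1) × Fin T // keep p.1 p.2} // y.1.1 = i} × Fin q :=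
      { toFun := fun y => (⟨y.1.1, y.2⟩, y.1.2)
        invFun := fun z => ⟨(z.1.1, z.2), z.1.2⟩
        left_inv := fun y => rfl
        right_inv := fun z => rfl }
    rw [Nat.card_congr e, Nat.card_prod, Nat.card_congr (fibEquiv keep i), trunc_card hST i,
      Nat.card_fin]
  have h3 := gd_add (K' := {q + 1, q * T + 1, q * S + 1}) h2 (by
    rintro u rfl
    simp) (by
    rintro ⟨p, j⟩
    rw [hfib p.1.1]
    split_ifs
    · rw [mul_comm T q]; simp
    · rw [mul_comm S q]; simp)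
  have h4 : AF q (Prod.fst : Option ({p : Fin (N + 1) × Fin T // keep p.1 p.2} × Fin q) ×
      Fin (q - 1) → _) := by
    refine AF_closure hq h3 ?_
    rintro k (rfl | rfl | rfl)
    · exact h0
    · exact hT
    · exact hS
  have hcard : Nat.card (Option ({p : Fin (N + 1) × Fin T // keep p.1 p.2} × Fin q)) =
      q * (N * T + S) + 1 := by
    rw [Finite.card_option, Nat.card_prod, card_trunc, trunc_sum hST, Nat.card_fin, mul_comm]
  have e : Option ({p : Fin (N + 1) × Fin T // keep p.1 p.2} × Fin q) ≃ Fin (q * (N * T + S) + 1) :=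
    (Finite.card_eq.1 (by rw [Nat.card_fin, hcard])).some
  exact AF_congr (Equiv.prodCongr e (Equiv.refl _)) e (fun v => rfl) h4

/-- all large sizes -/
theorem fr_all : ∃ C : ℕ, ∀ s : ℕ, 1 ≤ s → ∀ u : ℕ, (2 ^ s) ^ C ≤ u → FR (2 ^ s) (2 ^ s * u + 1) := by
  obtain ⟨C0, hC0⟩ := Pool.Agent.W865.SS.plus_one
  obtain ⟨Ct, hCt, hTD⟩ := td_gen
  obtain ⟨c, hc⟩ : ∃ c, c = C0 + 1 := ⟨_, rfl⟩
  obtain ⟨E, hE⟩ : ∃ E, E = 4 + 2 * (c + 1) + 3 * C0 + 1 + (2 * c + 1) * Ct + 2 * C0 := ⟨_, rfl⟩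
  refine ⟨2 * (c + 1) + E + 3, ?_⟩
  intro s hs u hu
  obtain ⟨q, hq⟩ : ∃ q, q = 2 ^ s := ⟨_, rfl⟩
  have hqpp : IsPrimePow q := ⟨2, s, Nat.prime_two.prime, hs, hq.symm⟩
  have hq2 : 2 ≤ q := hqpp.two_le
  have hqe : 2 ∣ q := by rw [hq]; exact dvd_pow_self 2 (by omega)
  have hhyp : FR q (2 * q + 1) := by rw [hq]; exact fr_hyp hs
  rw [← hq] at hu ⊢
  have hpl := fr_plane hqpp
  -- inequalities
  have i1 : q + 1 ≤ q ^ 2 := by nlinarith
  have i2 : 2 * q + 1 ≤ q ^ 3 := by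
    have : q ^ 3 = q * q * q := by ring
    nlinarith [Nat.mul_le_mul hq2 hq2]
  have i3 : 4 * q + 2 ≤ q ^ 4 := by
    have : q ^ 4 = (q * q) * (q * q) := by ring
    nlinarith [Nat.mul_le_mul hq2 hq2]
  have pw : ∀ a b : ℕ, a ≤ b → q ^ a ≤ q ^ b := fun a b h => Nat.pow_le_pow_right (by omega) h
  have p1 : ∀ a : ℕ, 1 ≤ q ^ a := fun a => Nat.one_le_pow _ _ (by omega)
  -- the number of groups
  obtain ⟨N, hN⟩ : ∃ N, N = (q + 1) ^ c := ⟨_, rfl⟩
  obtain ⟨m, hm⟩ : ∃ m, m = (q + 1) ^ (c + 1) := ⟨_, rfl⟩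
  have hmN : m = N * (q + 1) := by rw [hm, hN, pow_succ]
  have hNle : N ≤ q ^ (2 * c) := by
    rw [hN, pow_mul]
    exact Nat.pow_le_pow_left i1 c
  have hmle : m ≤ q ^ (2 * (c + 1)) := by
    rw [hm, pow_mul]
    exact Nat.pow_le_pow_left i1 _
  have hN1le : N + 1 ≤ q ^ (2 * c + 1) := by
    rw [pow_succ]
    have := p1 (2 * c)
    nlinarith
  have hNC : (q + 1) ^ C0 ≤ N := by
    rw [hN]
    exact Nat.pow_le_pow_right (by omega) (by omega)
  have hN0 : 1 ≤ N := by rw [hN]; exact Nat.one_le_pow _ _ (by omega)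
  have hm0 : 0 < m := by rw [hm]; positivity
  have hdN : (q + 1) ∣ N := by rw [hN]; exact dvd_pow_self _ (by omega)
  have hqN : N ≤ q * N + 1 := by nlinarith
  have hIN : IG {q + 1} q N 0 := by
    have h1 : IG {q + 1} 1 (q * N + 1) 0 := by
      refine hC0 (q + 1) (by simpa using hqpp) _ (hNC.trans hqN) (Or.inl ?_)
      rw [Nat.add_sub_cancel]
      obtain ⟨d, hd⟩ := hdN
      exact ((Nat.modEq_iff_dvd' (by omega)).2 ⟨d, by rw [Nat.add_sub_cancel, hd]; ring⟩).symm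
    have h2 := ig_delete_point (k := q + 1) (r := N) (by omega) (by
      rw [Nat.add_sub_cancel]; exact h1)
    rwa [Nat.add_sub_cancel] at h2
  have hIN1 : IG {q + 1} q (N + 1) 0 := by
    have h1 : IG {q + 1} 1 (q * (N + 1) + 1) 0 := by
      refine hC0 (q + 1) (by simpa using hqpp) _ (hNC.trans (by nlinarith)) (Or.inr ?_)
      rw [Nat.add_sub_cancel]
      obtain ⟨d, hd⟩ := hdN
      refine ((Nat.modEq_iff_dvd' (by nlinarith)).2 ⟨d, ?_⟩).symm
      have e1 : q * (N + 1) + 1 = (q + 1) * q * d + (q + 1) := by rw [hd]; ring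
      rw [e1, Nat.add_sub_cancel]
    have h2 := ig_delete_point (k := q + 1) (r := N + 1) (by omega) (by
      rw [Nat.add_sub_cancel]; exact h1)
    rwa [Nat.add_sub_cancel] at h2
  -- the truncated group
  have hcop : Nat.Coprime (4 * q + 2) m := by
    rw [hm]
    refine Nat.Coprime.pow_right _ ?_
    have e1 : 4 * q + 2 = 2 * (2 * q + 1) := by ring
    rw [e1]
    refine Nat.Coprime.mul_left ?_ ?_
    · rw [Nat.coprime_two_left]
      exact Even.add_one (even_iff_two_dvd.2 hqe)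
    · have h1 : Nat.gcd (2 * q + 1) (q + 1) ∣ 1 := by
        have h2 := Nat.gcd_dvd_left (2 * q + 1) (q + 1)
        have h3 := Nat.gcd_dvd_right (2 * q + 1) (q + 1)
        have h4 : Nat.gcd (2 * q + 1) (q + 1) ∣ 2 * (q + 1) := Dvd.dvd.mul_left h3 2
        have h5 := (Nat.dvd_sub h4 h2)
        have h6 : 2 * (q + 1) - (2 * q + 1) = 1 := by omega
        rwa [h6] at h5
      exact Nat.dvd_one.1 h1
  obtain ⟨J, hJ⟩ : ∃ J, J = (2 * q + 1) ^ C0 := ⟨_, rfl⟩
  obtain ⟨j, hj1, hj2, hj3⟩ := solve_mod (v := u) hm0 hcop J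
  obtain ⟨S, hS⟩ : ∃ S, S = j * (4 * q + 2) := ⟨_, rfl⟩
  rw [← hS] at hj3
  have hJle : J ≤ q ^ (3 * C0) := by
    rw [hJ, pow_mul]
    exact Nat.pow_le_pow_left i2 _
  have hSle : S ≤ q ^ E := by
    have h1 : j ≤ q ^ (2 * (c + 1) + 3 * C0 + 1) := by
      have h2 : j ≤ q ^ (2 * (c + 1)) + q ^ (3 * C0) := by omega
      have h3 := pw (2 * (c + 1)) (2 * (c + 1) + 3 * C0) (by omega)
      have h4 := pw (3 * C0) (2 * (c + 1) + 3 * C0) (by omega)
      have h5 : q ^ (2 * (c + 1) + 3 * C0 + 1) = q ^ (2 * (c + 1) + 3 * C0) * q := pow_succ _ _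
      nlinarith
    calc S ≤ q ^ (2 * (c + 1) + 3 * C0 + 1) * q ^ 4 := by rw [hS]; exact Nat.mul_le_mul h1 i3
      _ = q ^ (2 * (c + 1) + 3 * C0 + 1 + 4) := by rw [← pow_add]
      _ ≤ q ^ E := pw _ _ (by omega)
  have hTDle : (N + 1) ^ Ct ≤ q ^ E := by
    calc (N + 1) ^ Ct ≤ (q ^ (2 * c + 1)) ^ Ct := Nat.pow_le_pow_left hN1le _
      _ = q ^ ((2 * c + 1) * Ct) := by rw [← pow_mul]
      _ ≤ q ^ E := pw _ _ (by omega)
  have hC0le : (q + 1) ^ C0 ≤ q ^ E := by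
    calc (q + 1) ^ C0 ≤ (q ^ 2) ^ C0 := Nat.pow_le_pow_left i1 _
      _ = q ^ (2 * C0) := by rw [← pow_mul]
      _ ≤ q ^ E := pw _ _ (by omega)
  have hSu : S ≤ u := hSle.trans ((pw _ _ (by omega)).trans hu)
  obtain ⟨T', hT'⟩ := (Nat.modEq_iff_dvd' hSu).1 hj3
  have hT'big : q ^ E ≤ T' := by
    by_contra hcon
    push Not at hcon
    have h1 : m * T' ≤ q ^ (2 * (c + 1)) * q ^ E := Nat.mul_le_mul hmle hcon.le
    have h2 : u ≤ q ^ (2 * (c + 1)) * q ^ E + q ^ E := by omega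
    have h3 : q ^ (2 * (c + 1)) * q ^ E = q ^ (2 * (c + 1) + E) := by rw [← pow_add]
    have h4 := pw E (2 * (c + 1) + E) (by omega)
    have h5 : q ^ (2 * (c + 1) + E + 3) = q ^ (2 * (c + 1) + E) * (q * q * q) := by
      rw [pow_add]; ring
    have h6 := p1 (2 * (c + 1) + E)
    have h7 : 8 ≤ q * q * q := by nlinarith [Nat.mul_le_mul hq2 hq2]
    have h8 : q ^ (2 * (c + 1) + E) * 8 ≤ q ^ (2 * (c + 1) + E) * (q * q * q) :=
      Nat.mul_le_mul_left _ h7
    rw [h3] at h2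
    rw [h5] at hu
    omega
  obtain ⟨T, hT⟩ : ∃ T, T = (q + 1) * T' := ⟨_, rfl⟩
  have hTT' : T' ≤ T := by rw [hT]; nlinarith
  have huNT : u = N * T + S := by
    have e1 : N * T = m * T' := by rw [hT, hmN]; ring
    omega
  have hFS : FR q (q * S + 1) := by
    refine fr_closure hq2 (k := 2 * q + 1) ?_ hhyp
    refine hC0 (2 * q + 1) ?_ _ ?_ (Or.inl ?_)
    · rw [Nat.add_sub_cancel]
      exact ⟨2, s + 1, Nat.prime_two.prime, by omega, by rw [hq, pow_succ]; ring⟩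
    · have h1 : J ≤ S := by rw [hS]; nlinarith
      rw [← hJ]
      nlinarith
    · rw [Nat.add_sub_cancel]
      refine ((Nat.modEq_iff_dvd' (by omega)).2 ⟨j, ?_⟩).symm
      rw [Nat.add_sub_cancel, hS]
      ring
  have hFT : FR q (q * T + 1) := by
    refine fr_closure hq2 (k := q + 1) ?_ hpl
    refine hC0 (q + 1) (by simpa using hqpp) _ ?_ (Or.inl ?_)
    · refine hC0le.trans (hT'big.trans ?_)
      nlinarith
    · rw [Nat.add_sub_cancel]
      refine ((Nat.modEq_iff_dvd' (by omega)).2 ⟨T', ?_⟩).symm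
      rw [Nat.add_sub_cancel, hT]
      ring
  rw [huNT]
  exact fr_trunc hq2 (hTD (N + 1) (by omega) T (hTDle.trans (hT'big.trans hTT')))
    (hSle.trans (hT'big.trans hTT')) hIN hIN1 hpl hFT hFS

end Pool.Agent.X172.TP
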